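import Pool.Agent.T2h13.SC.Pell
import Pool.Agent.Q267.Landen.Eval

set_option autoImplicit false
set_option maxHeartbeats 4000000
set_option synthInstance.maxHeartbeats 400000

/-!
# Fermat quotients and the canonical condition for the Legendre family
-/

namespace Pool.Agent.T2h13.SC

open Finset Pool.Agent.Q267.CDE Polynomial
open Pool.Agent.Q267.Seven (dl dl_mod dl_sq dl_diff)
open Pool.Agent.Q267.Landen (Ph cc dd A1 A2 B2 landen landen_log cc_symm L1 Lam Lam_eval Lz p_mul_Lz Lz_cast Hh)
open Pool.Agent.Q267.MW (red_cancel leg_key)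
open Pool.Agent.Q267

variable (p : ℕ) [hp : Fact p.Prime]

theorem exists_fq (U : R p) (h : red p U ≠ 0) : ∃ z : ZMod p, U ^ (p - 1) = 1 + p * lift p z := by
  have h1 : red p (U ^ (p - 1)) = red p 1 := by
    rw [map_pow, map_one, ZMod.pow_card_sub_one_eq_one h]
  obtain ⟨y, hy⟩ := red_eq_of p _ _ h1
  refine ⟨red p y, ?_⟩
  rw [hy]
  congr 1
  exact p_mul_eq p _ _ (by rw [red_lift])

open Classical in
/-- the Fermat quotient of a unit of `ℤ/p²` -/
noncomputable def fq (U : R p) : ZMod p := if h : red p U ≠ 0 then (exists_fq p U h).choose else 0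

theorem fq_spec (U : R p) (h : red p U ≠ 0) : U ^ (p - 1) = 1 + p * lift p (fq p U) := by
  unfold fq
  rw [dif_pos h]
  exact (exists_fq p U h).choose_spec

theorem fq_unique (U : R p) (h : red p U ≠ 0) (y : R p) (hy : U ^ (p - 1) = 1 + p * y) :
    fq p U = red p y := by
  have h1 := fq_spec p U h
  rw [hy] at h1
  have h2 : (p : R p) * lift p (fq p U) = p * y := by linear_combination -h1
  have := red_cancel p _ _ h2
  rw [red_lift] at this
  exact this

theorem fq_mul (U V : R p) (hU : red p U ≠ 0) (hV : red p V ≠ 0) :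
    fq p (U * V) = fq p U + fq p V := by
  have h := fq_unique p (U * V) (by rw [map_mul]; exact mul_ne_zero hU hV)
    (lift p (fq p U) + lift p (fq p V)) (by
      rw [mul_pow, fq_spec p U hU, fq_spec p V hV]
      linear_combination (lift p (fq p U) * lift p (fq p V)) * p_sq p)
  rw [h, map_add, red_lift, red_lift]

theorem fq_one : fq p 1 = 0 := by
  rw [fq_unique p 1 (by rw [map_one]; exact one_ne_zero) 0 (by rw [one_pow, mul_zero, add_zero]),
    map_zero]

theorem fq_sq (U : R p) (hU : red p U ≠ 0) : fq p (U ^ 2) = 2 * fq p U := by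
  rw [pow_two, fq_mul p U U hU hU, two_mul]

theorem fq_neg (hodd : Odd p) (U : R p) (hU : red p U ≠ 0) : fq p (-U) = fq p U := by
  have hev : Even (p - 1) := Nat.Odd.sub_odd hodd odd_one
  have h := fq_unique p (-U) (by rw [map_neg]; exact neg_ne_zero.mpr hU) (lift p (fq p U))
    (by rw [hev.neg_pow, fq_spec p U hU])
  rw [h, red_lift]

/-- the finite logarithm in terms of Fermat quotients -/
theorem L1_fq (hodd : Odd p) (X : R p) (h0 : red p X ≠ 0) (h1 : red p (1 - X) ≠ 0) :
    (L1 (ZMod p) p).eval (red p X) = -(red p X * fq p X + (1 - red p X) * fq p (1 - X)) := by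
  obtain ⟨t, ht⟩ : ∃ n : ℤ, (n : R p) = X := ZMod.intCast_surjective X
  have h := p_mul_Lz p hodd t
  have h' := congrArg (Int.cast : ℤ → R p) h
  push_cast at h'
  rw [ht] at h'
  have e1 : X ^ p = X * (1 + p * lift p (fq p X)) := by
    rw [← fq_spec p X h0, ← pow_succ' X, Nat.sub_add_cancel hp.out.one_le]
  have e2 : (1 - X) ^ p = (1 - X) * (1 + p * lift p (fq p (1 - X))) := by
    rw [← fq_spec p (1 - X) h1, ← pow_succ' (1 - X), Nat.sub_add_cancel hp.out.one_le]
  rw [e1, e2] at h'
  have h2 : (p : R p) * ((Lz p t : ℤ) : R p) =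
      p * (-(X * lift p (fq p X) + (1 - X) * lift p (fq p (1 - X)))) := by
    linear_combination h'
  have h3 := red_cancel p _ _ h2
  rw [map_neg, map_add, map_mul, map_mul, map_sub, map_one, red_lift, red_lift, red_int, Lz_cast] at h3
  have h4 : ((t : ℤ) : ZMod p) = red p X := by rw [← ht, red_int]
  rw [h4] at h3
  exact h3

variable (m : ℕ)

/-- `∑ C(m,k)² y^k` -/
noncomputable def ff (y : ZMod p) : ZMod p := ∑ k ∈ range (m + 1), cc (ZMod p) m k * y ^ k

/-- the logarithmic companion -/
noncomputable def gg (y : ZMod p) : ZMod p := ∑ k ∈ range (m + 1), dd (ZMod p) m k * y ^ k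

/-- the obstruction to being canonical -/
noncomputable def Ob (U : R p) : ZMod p := 2 * gg p m (red p U) + fq p U * ff p m (red p U)

theorem landen_step (hpm : p = 2 * m + 1) (X V : R p)
    (h0 : red p X ≠ 0) (h1 : red p (1 - X) ≠ 0) (h2 : red p (1 + X) ≠ 0)
    (hV : V * (1 + X) ^ 2 = (1 - X) ^ 2) :
    ff p m (red p V) = ff p m (red p (1 - X ^ 2)) ∧
    red p X * Ob p m V = 2 * Ob p m (1 - X ^ 2) := by
  have hodd : Odd p := ⟨m, hpm⟩
  have hch2 : (2 : ZMod p) ≠ 0 := by
    have := cast_ne p 2 (by norm_num) (by have := hp.out.two_le; omega)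
    exact_mod_cast this
  set x := red p X with hx
  set v := red p V with hv
  have hu : red p (1 - X ^ 2) = 1 - x ^ 2 := by rw [map_sub, map_one, map_pow]
  have h1' : 1 - x ≠ 0 := by rw [map_sub, map_one] at h1; exact h1
  have h2' : 1 + x ≠ 0 := by rw [map_add, map_one] at h2; exact h2
  have hv' : v * (1 + x) ^ 2 = (1 - x) ^ 2 := by
    have := congrArg (red p) hV
    rw [map_mul, map_pow, map_pow, map_add, map_sub, map_one] at this
    exact this
  have hone : (1 + x) ^ (2 * m) = 1 := by
    rw [show 2 * m = p - 1 by omega]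
    exact ZMod.pow_card_sub_one_eq_one h2'
  have hk : ∀ k, k ≤ m → (1 - x) ^ (2 * k) * (1 + x) ^ (2 * (m - k)) = v ^ k := by
    intro k hk
    rw [pow_mul, ← hv', mul_pow, ← pow_mul, mul_assoc, ← pow_add, show 2 * k + 2 * (m - k) = 2 * m by omega,
      hone, mul_one]
  have hf : ff p m v = ff p m (1 - x ^ 2) := by
    have h := landen_eval p m hpm x
    unfold ff
    rw [← h]
    refine sum_congr rfl fun k hk' => ?_
    rw [mul_assoc, hk k (by have := mem_range.mp hk'; omega)]
  have hg : x * gg p m v = 2 * gg p m (1 - x ^ 2) -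
      ((L1 (ZMod p) p).eval x + (L1 (ZMod p) p).eval (-x)) * ff p m (1 - x ^ 2) := by
    have h := congrArg (Polynomial.eval x) (landen_log (K := ZMod p) p m hpm hch2)
    rw [eval_mul, eval_pow, eval_X, ZMod.pow_card, eval_sub, eval_mul, eval_mul,
      Lam_eval p m hpm x] at h
    unfold Ph A1 A2 B2 at h
    rw [eval_finsetSum, eval_finsetSum, eval_finsetSum] at h
    simp only [eval_mul, eval_C, eval_pow, eval_sub, eval_add, eval_one, eval_X, one_pow, mul_one,
      pow_zero, eval_ofNat] at h
    unfold gg ff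
    rw [← h]
    congr 1
    refine sum_congr rfl fun k hk' => ?_
    rw [← hk k (by have := mem_range.mp hk'; omega), pow_mul, pow_mul]
    ring
  refine ⟨by rw [hu]; exact hf, ?_⟩
  have q1 : fq p (1 - X ^ 2) = fq p (1 - X) + fq p (1 + X) := by
    rw [show (1 - X ^ 2 : R p) = (1 - X) * (1 + X) by ring, fq_mul p _ _ h1 h2]
  have hVr : red p V ≠ 0 := by
    intro h
    rw [← hv] at h
    rw [h, zero_mul] at hv'
    exact pow_ne_zero 2 h1' hv'.symm
  have q2 : fq p V + 2 * fq p (1 + X) = 2 * fq p (1 - X) := by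
    rw [← fq_sq p (1 - X) h1, ← hV, fq_mul p V _ hVr (by rw [map_pow]; exact pow_ne_zero 2 h2),
      fq_sq p (1 + X) h2]
  have l1 := L1_fq p hodd X h0 h1
  have l2 := L1_fq p hodd (-X) (by rw [map_neg]; exact neg_ne_zero.mpr h0)
    (by rw [sub_neg_eq_add]; exact h2)
  rw [sub_neg_eq_add, fq_neg p hodd X h0, map_neg] at l2
  unfold Ob
  rw [← hv, hu, hf]
  rw [l1, l2] at hg
  linear_combination 2 * hg + (x * ff p m (1 - x ^ 2)) * q2 - 2 * ff p m (1 - x ^ 2) * q1

/-- **The unit root of a member of the Legendre family with vanishing obstruction.** -/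
theorem key_of_Ob (hpm : p = 2 * m + 1) (hm : 0 < m) (L a : R p) (hL0 : red p L ≠ 0)
    (hL1 : red p L ≠ 1) (hO : Ob p m L = 0)
    (ha : ∑ x : ZMod p, om p x ^ m * om p (1 - x) ^ m * om p (1 - (red p L) * x) ^ m = -a) :
    (-1) ^ m * a * (∑ k ∈ range (m + 1), (dl m k : R p) * L ^ k) =
      (∑ k ∈ range (m + 1), (dl m k : R p) * L ^ k) ^ 2 + p ∧
    red p ((-1) ^ m * a) = red p (∑ k ∈ range (m + 1), (dl m k : R p) * L ^ k) := by
  have hpp := p_sq p
  have hch2 : (2 : ZMod p) ≠ 0 := by
    have := cast_ne p 2 (by norm_num) (by have := hp.out.two_le; omega)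
    exact_mod_cast this
  obtain ⟨i2, hi2⟩ : ∃ i : ZMod p, 2 * i = 1 := ⟨2⁻¹, mul_inv_cancel₀ hch2⟩
  set u : R p := 1 + p * lift p (i2 * fq p L) with hu
  have hred : red p u = 1 := by
    rw [hu, map_add, map_one, map_mul, red_nat, ZMod.natCast_self, zero_mul, add_zero]
  have hLu : L ^ (p - 1) = u ^ 2 := by
    rw [fq_spec p L hL0]
    have : (p : R p) * lift p (fq p L) = p * (2 * lift p (i2 * fq p L)) := by
      apply p_mul_eq
      rw [red_lift, map_mul, map_ofNat, red_lift]
      linear_combination (-fq p L) * hi2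
    rw [this, hu]
    linear_combination -(lift p (i2 * fq p L)) ^ 2 * hpp
  refine leg_key p hpm hm L u a hL0 hL1 hred hLu ?_ ha
  set l := red p L with hl
  set F := ∑ k ∈ range (m + 1), (dl m k : R p) * L ^ k with hF
  have hredF : red p F = ff p m l := by
    rw [hF, map_sum]
    unfold ff
    refine sum_congr rfl fun k hk => ?_
    rw [map_mul, map_intCast, map_pow, dl_mod p m hpm k (by have := mem_range.mp hk; omega)]
  have h1 : ∑ k ∈ range (m + 1), (dl m k : R p) * L ^ (m - k) = F - p * lift p (gg p m l) := by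
    have e1 : ∑ k ∈ range (m + 1), (dl m k : R p) * L ^ (m - k) =
        ∑ k ∈ range (m + 1), (dl m (m - k) : R p) * L ^ k := by
      rw [← sum_range_reflect]
      refine sum_congr rfl fun k hk => ?_
      have hk' : k < m + 1 := mem_range.mp hk
      rw [show m + 1 - 1 - k = m - k by omega, Nat.sub_sub_self (by omega)]
    have e2 : (p : R p) * lift p (gg p m l) = p * ∑ k ∈ range (m + 1),
        (Seven.cR p m k * (Seven.hR p (m - k) - Seven.hR p k)) * L ^ k := by
      apply p_mul_eq
      rw [red_lift, map_sum]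
      unfold gg
      refine sum_congr rfl fun k hk => ?_
      have hk' : k < m + 1 := mem_range.mp hk
      rw [map_mul, map_mul, map_sub, map_pow]
      have e3 : red p (Seven.hR p (m - k)) = Hh (ZMod p) (m - k) :=
        Seven.red_hR p _ (by omega)
      have e4 : red p (Seven.hR p k) = Hh (ZMod p) k := Seven.red_hR p _ (by omega)
      rw [e3, e4, ← hl]
      unfold Seven.cR dd cc
      rw [map_pow, red_nat]
    rw [e1, e2, hF, mul_sum, ← sum_sub_distrib]
    refine sum_congr rfl fun k hk => ?_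
    have hk' : k < m + 1 := mem_range.mp hk
    have := dl_diff p m hpm k (by omega)
    linear_combination L ^ k * this
  rw [h1, hu]
  have h2 : (p : R p) * (-lift p (gg p m l)) = p * (lift p (i2 * fq p L) * F) := by
    apply p_mul_eq
    rw [map_neg, red_lift, map_mul, red_lift, hredF]
    unfold Ob at hO
    rw [← hl] at hO
    linear_combination (-i2) * hO + gg p m l * hi2
  linear_combination h2

end Pool.Agent.T2h13.SC
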