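import Pool.Agent.T2h13.SC.LoopPt

set_option autoImplicit false
set_option maxHeartbeats 4000000
set_option synthInstance.maxHeartbeats 400000

/-!
# The trace of Frobenius of a Legendre curve with a loop of two Landen isogenies
-/

namespace Pool.Agent.T2h13.SC

open Polynomial Pool.Agent.Q267.MW WeierstrassCurve WeierstrassCurve.Affine WithZero Finset

noncomputable section

section gen

variable {F : Type*} [Field F] {x y l l' : F}

theorem cop_X_sub {a b : F} (h : a ≠ b) : IsCoprime (X - C a) (X - C b) :=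
  isCoprime_X_sub_C_of_isUnit_sub (isUnit_iff_ne_zero.mpr (sub_ne_zero.mpr h))

theorem nA_deg (hL : Loop x y l l') : (nA x y l).natDegree = 4 := by
  have hN : ((X - C (0 - hh l)) * (X - C (l - hh l)) * (X - C (1 - x - hh l)) ^ 2 : F[X]).natDegree = 4 := by
    rw [Monic.natDegree_mul ((monic_X_sub_C _).mul (monic_X_sub_C _)) ((monic_X_sub_C _).pow 2),
      Monic.natDegree_mul (monic_X_sub_C _) (monic_X_sub_C _), (monic_X_sub_C _).natDegree_pow,
      natDegree_X_sub_C, natDegree_X_sub_C, natDegree_X_sub_C]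
  have hD : (C (hh l * ((1 + x) ^ 2 * (1 + y) ^ 2)) *
      ((X - C (1 - hh l)) * (X - C (1 + x - hh l)) ^ 2) : F[X]).natDegree ≤ 3 := by
    refine (natDegree_C_mul_le _ _).trans ?_
    rw [Monic.natDegree_mul (monic_X_sub_C _) ((monic_X_sub_C _).pow 2), (monic_X_sub_C _).natDegree_pow,
      natDegree_X_sub_C, natDegree_X_sub_C]
  unfold nA
  rw [natDegree_sub_eq_left_of_natDegree_lt (by omega), hN]

theorem dA_deg (hL : Loop x y l l') : (dA x y l).natDegree = 3 := by
  unfold dA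
  rw [natDegree_C_mul (mul_ne_zero (pow_ne_zero 2 hL.x1) (pow_ne_zero 2 hL.y1)),
    Monic.natDegree_mul (monic_X_sub_C _) ((monic_X_sub_C _).pow 2), (monic_X_sub_C _).natDegree_pow,
      natDegree_X_sub_C, natDegree_X_sub_C]

theorem cop_A (h2 : (2 : F) ≠ 0) (hL : Loop x y l l') : IsCoprime (nA x y l) (dA x y l) := by
  have hc : (1 + x) ^ 2 * (1 + y) ^ 2 ≠ 0 := mul_ne_zero (pow_ne_zero 2 hL.x1) (pow_ne_zero 2 hL.y1)
  have hx0 := hL.x0
  have hx1 := hL.x1
  have hl := hL.hl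
  have key : IsCoprime ((X - C (0 - hh l)) * (X - C (l - hh l)) * (X - C (1 - x - hh l)) ^ 2 : F[X])
      ((X - C (1 - hh l)) * (X - C (1 + x - hh l)) ^ 2) := by
    have n1 : (0 : F) - hh l ≠ 1 - hh l := by
      intro h
      exact zero_ne_one (by linear_combination h)
    have n2 : (0 : F) - hh l ≠ 1 + x - hh l := by
      intro h
      exact hx1 (by linear_combination -h)
    have n3 : l - hh l ≠ 1 - hh l := by
      intro h
      have : x ^ 2 = 0 := by linear_combination -h + hl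
      exact pow_ne_zero 2 hx0 this
    have n4 : l - hh l ≠ 1 + x - hh l := by
      intro h
      have : x * (1 + x) = 0 := by linear_combination -h + hl
      exact mul_ne_zero hx0 hx1 this
    have n5 : 1 - x - hh l ≠ 1 - hh l := by
      intro h
      exact hx0 (by linear_combination -h)
    have n6 : 1 - x - hh l ≠ 1 + x - hh l := by
      intro h
      exact mul_ne_zero h2 hx0 (by linear_combination -h)
    refine IsCoprime.mul_left (IsCoprime.mul_left ?_ ?_) (IsCoprime.pow_left ?_)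
    · exact IsCoprime.mul_right (cop_X_sub n1) (IsCoprime.pow_right (cop_X_sub n2))
    · exact IsCoprime.mul_right (cop_X_sub n3) (IsCoprime.pow_right (cop_X_sub n4))
    · exact IsCoprime.mul_right (cop_X_sub n5) (IsCoprime.pow_right (cop_X_sub n6))
  obtain ⟨u, v, huv⟩ := key
  unfold nA dA
  have hcc : C ((1 + x) ^ 2 * (1 + y) ^ 2)⁻¹ * C ((1 + x) ^ 2 * (1 + y) ^ 2) = (1 : F[X]) := by
    rw [← C_mul, inv_mul_cancel₀ hc, C_1]
  refine ⟨u, C (((1 + x) ^ 2 * (1 + y) ^ 2)⁻¹) * v + C (hh l) * u, ?_⟩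
  rw [C_mul (a := hh l)]
  linear_combination huv + (v * ((X - C (1 - hh l)) * (X - C (1 + x - hh l)) ^ 2)) * hcc

theorem hgt_pt {a b : F} (h2 : (2 : F) ≠ 0) (hΔ : 4 * a ^ 3 + 27 * b ^ 2 ≠ 0) {U V : RatFunc F}
    (h : io (fp a b) * V ^ 2 = U ^ 3 + io (C a) * U + io (C b)) {n d : F[X]} (hd : d ≠ 0)
    (hc : IsCoprime n d) (hx : U = io n / io d) : hgt (pt h2 hΔ h) = mh n d := by
  unfold pt
  rw [hgt_of _ hd hc (by rw [pt_X, hx])]

theorem hΔL (h3 : (3 : F) ≠ 0) (hL : Loop x y l l') : 4 * (ca l) ^ 3 + 27 * (cb l) ^ 2 ≠ 0 := by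
  rw [disc_eq h3]
  have h1 : l ≠ 0 := by
    rw [hL.hl, show (1 : F) - x ^ 2 = (1 - x) * (1 + x) by ring]
    exact mul_ne_zero hL.x2 hL.x1
  have h2 : 1 - l ≠ 0 := by
    rw [hL.hl, show (1 : F) - (1 - x ^ 2) = x ^ 2 by ring]
    exact pow_ne_zero 2 hL.x0
  exact neg_ne_zero.mpr (mul_ne_zero (pow_ne_zero 2 h1) (pow_ne_zero 2 h2))

theorem goodA (h2 : (2 : F) ≠ 0) (h3 : (3 : F) ≠ 0) (hL : Loop x y l l') :
    Good ((1 + x) * (1 + y)) (pt h2 (hΔL h3 hL) (eqA h3 hL)) := by
  apply good_pt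
  · rw [← ndA hL]
    exact vi_pos (dA_ne hL) (by rw [nA_deg hL, dA_deg hL]; norm_num)
  · exact derA hL

theorem hgtA (h2 : (2 : F) ≠ 0) (h3 : (3 : F) ≠ 0) (hL : Loop x y l l') :
    hgt (pt h2 (hΔL h3 hL) (eqA h3 hL)) = 4 := by
  rw [hgt_pt h2 (hΔL h3 hL) (eqA h3 hL) (dA_ne hL) (cop_A h2 hL) (ndA hL).symm]
  unfold mh
  rw [nA_deg hL, dA_deg hL]
  rfl

end gen

section prime

variable {p : ℕ} [hp : Fact p.Prime]

theorem dvd_deg (q : (ZMod p)[X]) (h : derivative q = 0) : p ∣ q.natDegree := by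
  rcases Nat.eq_zero_or_pos q.natDegree with h0 | h0
  · rw [h0]; exact dvd_zero _
  have hq : q ≠ 0 := by
    rintro rfl
    rw [natDegree_zero] at h0
    exact absurd h0 (lt_irrefl _)
  have h1 := congrArg (fun r => r.coeff (q.natDegree - 1)) h
  simp only [coeff_derivative, coeff_zero] at h1
  rw [Nat.sub_add_cancel h0] at h1
  have h2 : q.coeff q.natDegree ≠ 0 := leadingCoeff_ne_zero.mpr hq
  have h3 := (mul_eq_zero.mp h1).resolve_left h2
  have h4 : ((q.natDegree : ℕ) : ZMod p) = 0 := by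
    have : ((q.natDegree - 1 : ℕ) : ZMod p) + 1 = ((q.natDegree : ℕ) : ZMod p) := by
      have h5 := congrArg (Nat.cast : ℕ → ZMod p) (Nat.sub_add_cancel h0)
      push_cast at h5
      exact h5
    rw [← this]; exact h3
  rwa [ZMod.natCast_eq_zero_iff] at h4

/-- inseparable points have degree divisible by `p` -/
theorem dvd_hgt {a b : ZMod p} (P : (TW a b).Point) (hg : Good (0 : ZMod p) P) : p ∣ hgt P := by
  cases P with
  | zero =>
    have : hgt (0 : (TW a b).Point) = 0 := hgt_zero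
    exact (dvd_of_eq (Eq.refl p)).trans (by
      have h : hgt (Point.zero : (TW a b).Point) = 0 := this
      rw [h]; exact dvd_zero _)
  | some u v h =>
    obtain ⟨-, hd⟩ := (good_some h).mp hg
    rw [C_0, map_zero, zero_mul] at hd
    set z := u / io (fp a b) with hz
    have hzd : z.denom ≠ 0 := RatFunc.denom_ne_zero z
    have hk : io z.denom ≠ 0 := io_ne hzd
    unfold rd at hd
    have h1 : io (derivative z.num) * io z.denom - io z.num * io (derivative z.denom) = 0 := by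
      rcases div_eq_zero_iff.mp hd with h' | h'
      · exact h'
      · exact absurd h' (pow_ne_zero 2 hk)
    rw [← map_mul, ← map_mul, ← map_sub] at h1
    have h2 : derivative z.num * z.denom - z.num * derivative z.denom = 0 := io_inj (by rw [h1, map_zero])
    have hc : IsCoprime z.denom z.num := (RatFunc.isCoprime_num_denom z).symm
    have h3 : z.denom ∣ derivative z.denom := by
      apply hc.dvd_of_dvd_mul_left
      exact ⟨derivative z.num, by linear_combination -h2⟩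
    have h4 : derivative z.denom = 0 := by
      by_contra hne
      have := natDegree_le_of_dvd h3 hne
      have h0 : z.denom.natDegree ≠ 0 := by
        intro h0
        apply hne
        rw [eq_C_of_natDegree_eq_zero h0, derivative_C]
      have := natDegree_derivative_lt h0
      omega
    have h5 : derivative z.num = 0 := by
      rw [h4, mul_zero, sub_zero] at h2
      exact (mul_eq_zero.mp h2).resolve_right hzd
    have e : hgt (Point.some u v h) = mh z.num z.denom := by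
      unfold hgt
      rw [rep_some]
    rw [e]
    unfold mh
    rcases le_total z.num.natDegree z.denom.natDegree with h6 | h6
    · rw [max_eq_right h6]; exact dvd_deg _ h4
    · rw [max_eq_left h6]; exact dvd_deg _ h5

variable {x y l l' : ZMod p}

open Classical in
/-- the trace of the endomorphism is determined by its multiplier -/
theorem t_eq (h2 : (2 : ZMod p) ≠ 0) (h3 : (3 : ZMod p) ≠ 0) (hL : Loop x y l l') (hp7 : 7 < p)
    (hal : ((1 + x) * (1 + y)) ^ 2 = (1 + x) * (1 + y) - 4) :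
    ((hgt (pt h2 (hΔL h3 hL) (P0_eq (ca l) (cb l)) + pt h2 (hΔL h3 hL) (eqA h3 hL)) : ℕ) : ℤ) = 1 + 4 + 1 := by
  set P := pt h2 (hΔL h3 hL) (P0_eq (ca l) (cb l)) with hP
  set A := pt h2 (hΔL h3 hL) (eqA h3 hL) with hA
  set al := (1 + x) * (1 + y) with hald
  have hpar : ∀ P Q : (TW (ca l) (cb l)).Point, ((hgt (P + Q) : ℕ) : ℤ) + ((hgt (P - Q) : ℕ) : ℤ) =
      2 * (((hgt P : ℕ) : ℤ) + ((hgt Q : ℕ) : ℤ)) := by
    intro P Q
    exact_mod_cast par h2 (hΔL h3 hL) P Q
  have hP1 : ((hgt P : ℕ) : ℤ) = 1 := by rw [hP, hgt_P0]; rfl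
  have hA4 : ((hgt A : ℕ) : ℤ) = 4 := by rw [hA, hgtA h2 h3 hL]; rfl
  have hb := hpar P A
  rw [hP1, hA4] at hb
  have hb1 : (0 : ℤ) ≤ ((hgt (P + A) : ℕ) : ℤ) := Int.natCast_nonneg _
  have hb2 : (0 : ℤ) ≤ ((hgt (P - A) : ℕ) : ℤ) := Int.natCast_nonneg _
  set h0 : ℤ := ((hgt (P + A) : ℕ) : ℤ) with hh0
  obtain ⟨r, hr⟩ : ∃ r : ℤ, (r : ZMod p) = -al := ZMod.intCast_surjective _
  have hq := qf_line (fun P : (TW (ca l) (cb l)).Point => ((hgt P : ℕ) : ℤ)) hpar P A r
  rw [hP1, hA4, ← hh0] at hq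
  have hgood : Good (0 : ZMod p) (r • P + A) := by
    have h1 := good_add h2 (good_zsmul h2 (good_P0 h2 (hΔL h3 hL)) r) (goodA h2 h3 hL)
    rw [mul_one, hr, neg_add_cancel] at h1
    exact h1
  have hdvd := dvd_hgt _ hgood
  have hdvd' : (p : ℤ) ∣ ((hgt (r • P + A) : ℕ) : ℤ) := by exact_mod_cast hdvd
  rw [hq] at hdvd'
  have h5 := (ZMod.intCast_zmod_eq_zero_iff_dvd _ p).mpr hdvd'
  push_cast at h5
  rw [hr] at h5
  -- `al (6 - h0) = 0`
  have h6 : al * (((6 - h0 : ℤ) : ℤ) : ZMod p) = 0 := by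
    push_cast
    linear_combination h5 - hal
  have hal0 : al ≠ 0 := mul_ne_zero hL.x1 hL.y1
  have h7 := (mul_eq_zero.mp h6).resolve_left hal0
  rw [ZMod.intCast_zmod_eq_zero_iff_dvd] at h7
  obtain ⟨k, hk⟩ := h7
  have hk0 : k = 0 := by
    have hp' : (7 : ℤ) < p := by exact_mod_cast hp7
    have u1 : 6 - h0 ≤ 6 := by omega
    have u2 : -4 ≤ 6 - h0 := by omega
    rw [hk] at u1 u2
    by_contra hne
    rcases lt_or_gt_of_ne hne with h | h
    · nlinarith
    · nlinarith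
  rw [hk0, mul_zero] at hk
  omega

open Classical in
/-- **The trace** when the multiplier satisfies `α² - α + 4 = 0` -/
theorem loop_trace (h2 : (2 : ZMod p) ≠ 0) (h3 : (3 : ZMod p) ≠ 0) (hL : Loop x y l l') (hp7 : 7 < p)
    (hal : ((1 + x) * (1 + y)) ^ 2 = (1 + x) * (1 + y) - 4) (ha : ca l ≠ 0) (hb : cb l ≠ 0) (r s : ℤ)
    (hrs : (p : ℤ) = r ^ 2 + r * s + 4 * s ^ 2) (h0 : (r : ZMod p) + s * ((1 + x) * (1 + y)) = 0) :
    (∑ z : ZMod p, quadraticChar (ZMod p) (z * (z - 1) * (z - l)) = 2 * r + s) ∨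
    (∑ z : ZMod p, quadraticChar (ZMod p) (z * (z - 1) * (z - l)) = -(2 * r + s)) := by
  have key := trace_endo h2 h3 ha hb (hΔL h3 hL) ((1 + x) * (1 + y)) (pt h2 (hΔL h3 hL) (eqA h3 hL))
    (goodA h2 h3 hL) 4 1 (by rw [hgtA h2 h3 hL]; rfl) (t_eq h2 h3 hL hp7 hal) r s (by rw [hrs]; ring) h0
  have e : ∑ z : ZMod p, quadraticChar (ZMod p) ((fp (ca l) (cb l)).eval z) =
      ∑ z : ZMod p, quadraticChar (ZMod p) (z * (z - 1) * (z - l)) := by
    refine Fintype.sum_equiv (Equiv.addRight (hh l)) _ _ fun z => ?_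
    show _ = quadraticChar (ZMod p) ((z + hh l) * (z + hh l - 1) * (z + hh l - l))
    congr 1
    rw [← short_eq (hh l) l z (by unfold hh; field_simp)]
    unfold fp ca cb
    simp only [eval_add, eval_mul, eval_pow, eval_X, eval_C]
  rw [e, mul_one] at key
  exact key

end prime

end

end Pool.Agent.T2h13.SC
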