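import Pool.Agent.W309.T3.Count
import Pool.Agent.Q267.CDE.Base

set_option autoImplicit false
set_option maxHeartbeats 4000000
set_option synthInstance.maxHeartbeats 400000

/-!
# Signs: points of order three and fifth roots of unity
-/

namespace Pool.Agent.T2h13.SC

open Finset

section three

variable {p : ℕ} [hp : Fact p.Prime]

open Classical in
/-- a point of order three on a quadratic twist -/
theorem three_sum (h2 : (2 : ZMod p) ≠ 0) {e u c l : ZMod p} (hu : u ≠ 0) (hd : 4 * u * c ^ 3 ≠ 27)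
    (h : ∀ z : ZMod p, (z + e) * (z + e - 1) * (z + e - l) = z ^ 3 + u * (c * z + 1) ^ 2) :
    (3 : ℤ) ∣ p + 1 + quadraticChar (ZMod p) u *
      ∑ z : ZMod p, quadraticChar (ZMod p) (z * (z - 1) * (z - l)) := by
  have hcd := Pool.Agent.W309.T3.card_char h2 (fun x : ZMod p => x ^ 3 + u * (c * x + 1) ^ 2)
  have htw := Pool.Agent.W309.T3.count_twist h2 hu c 1
  have hgd := Pool.Agent.W309.T3.count_good h2 (α := u * c) (β := u ^ 2 * 1)
    (by rw [mul_one]; exact pow_ne_zero 2 hu) (by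
      intro h'
      apply hd
      have : u ^ 2 * (4 * u * c ^ 3 - 27) = 0 := by linear_combination h'
      have := (mul_eq_zero.mp this).resolve_left (pow_ne_zero 2 hu)
      linear_combination this)
  have hS : ∑ x : ZMod p, quadraticChar (ZMod p) (x ^ 3 + u * (c * x + 1) ^ 2) =
      ∑ z : ZMod p, quadraticChar (ZMod p) (z * (z - 1) * (z - l)) := by
    refine Fintype.sum_equiv (Equiv.addRight e) _ _ fun z => ?_
    show _ = quadraticChar (ZMod p) ((z + e) * (z + e - 1) * (z + e - l))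
    rw [h z]
  rw [sum_add_distrib, sum_const, card_univ, nsmul_eq_mul, mul_one, hS, ZMod.card] at hcd
  have hN : (Nat.card (Pool.Agent.W309.T3.TS u c 1) : ℤ) =
      ∑ z : ZMod p, quadraticChar (ZMod p) (z * (z - 1) * (z - l)) + (p : ℤ) := hcd
  rw [hN, Nat.card_zmod] at htw
  obtain ⟨k, hk⟩ := hgd
  have h6 : quadraticChar (ZMod p) u * quadraticChar (ZMod p) u = 1 := by
    rw [← sq]
    exact quadraticChar_sq_one hu
  refine ⟨k, ?_⟩
  have hk' : (Nat.card (Pool.Agent.W309.T3.TS (1 : ZMod p) (u * c) (u ^ 2 * 1)) : ℤ) + 1 = 3 * k := by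
    exact_mod_cast hk
  linear_combination hk' - quadraticChar (ZMod p) u * htw -
    ((p : ℤ) - (Nat.card (Pool.Agent.W309.T3.TS (1 : ZMod p) (u * c) (u ^ 2 * 1)) : ℤ)) * h6

end three

section five

variable {p : ℕ} [hp : Fact p.Prime]

/-- `-(5+√5)/2` is a square modulo `p` if and only if `p ≡ 1 (mod 5)` -/
theorem five_sq (h2 : (2 : ZMod p) ≠ 0) (h5 : (5 : ZMod p) ≠ 0) {r w : ZMod p} (hr : r ^ 2 = 5)
    (hw : 2 * w = -(5 + r)) : IsSquare w ↔ p % 5 = 1 := by
  have hp2 := hp.out.two_le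
  constructor
  · rintro ⟨v, hv⟩
    -- `ζ = (η + v) / 2`, `η = (r - 1) / 2`
    obtain ⟨i, hi⟩ : ∃ i : ZMod p, 2 * i = 1 := ⟨2⁻¹, mul_inv_cancel₀ h2⟩
    set η := i * (r - 1) with hη
    set ζ := i * (η + v) with hζ
    have h2η : 2 * η = r - 1 := by rw [hη]; linear_combination (r - 1) * hi
    have h2ζ : 2 * ζ = η + v := by rw [hζ]; linear_combination (η + v) * hi
    have hηq : η ^ 2 + η - 1 = 0 := by
      have : (2 : ZMod p) ^ 2 * (η ^ 2 + η - 1) = 0 := by
        linear_combination (2 * η + r + 1) * h2η + hr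
      exact (mul_eq_zero.mp this).resolve_left (pow_ne_zero 2 h2)
    have hvη : v * v = -(3 + η) := by
      have : (2 : ZMod p) * (v * v + (3 + η)) = 0 := by linear_combination hw - 2 * hv + h2η
      have := (mul_eq_zero.mp this).resolve_left h2
      linear_combination this
    have hq : ζ ^ 2 - η * ζ + 1 = 0 := by
      have : (2 : ZMod p) ^ 2 * (ζ ^ 2 - η * ζ + 1) = 0 := by
        linear_combination (2 * ζ - η + v) * h2ζ + hvη - hηq
      exact (mul_eq_zero.mp this).resolve_left (pow_ne_zero 2 h2)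
    have hcyc : ζ ^ 4 + ζ ^ 3 + ζ ^ 2 + ζ + 1 = 0 := by
      linear_combination (ζ ^ 2 + (η + 1) * ζ + 1) * hq + ζ ^ 2 * hηq
    have h51 : ζ ^ 5 = 1 := by linear_combination (ζ - 1) * hcyc
    have hne : ζ ≠ 1 := by
      intro h
      rw [h] at hcyc
      apply h5
      linear_combination hcyc
    have : Fact (Nat.Prime 5) := ⟨by norm_num⟩
    have hord : orderOf ζ = 5 := orderOf_eq_prime h51 hne
    have hζ0 : ζ ≠ 0 := by
      intro h
      rw [h] at h51
      norm_num at h51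
    have hdvd := orderOf_dvd_of_pow_eq_one (ZMod.pow_card_sub_one_eq_one hζ0)
    rw [hord] at hdvd
    omega
  · intro hmod
    -- a primitive fifth root of unity
    obtain ⟨ζ, hζ5, hζ1⟩ : ∃ ζ : ZMod p, ζ ^ 5 = 1 ∧ ζ ≠ 1 := by
      have hcard : Fintype.card (ZMod p)ˣ = p - 1 := by rw [ZMod.card_units_eq_totient, Nat.totient_prime hp.out]
      have h5d : 5 ∣ Fintype.card (ZMod p)ˣ := by rw [hcard]; omega
      have : Fact (Nat.Prime 5) := ⟨by norm_num⟩
      obtain ⟨g, hg⟩ := exists_prime_orderOf_dvd_card 5 h5d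
      refine ⟨(g : ZMod p), ?_, ?_⟩
      · have := pow_orderOf_eq_one g
        rw [hg] at this
        have := congrArg (Units.val) this
        push_cast at this
        exact this
      · intro h
        have : g = 1 := Units.ext h
        rw [this, orderOf_one] at hg
        norm_num at hg
    have hcyc : ζ ^ 4 + ζ ^ 3 + ζ ^ 2 + ζ + 1 = 0 := by
      have : (ζ - 1) * (ζ ^ 4 + ζ ^ 3 + ζ ^ 2 + ζ + 1) = 0 := by linear_combination hζ5
      exact (mul_eq_zero.mp this).resolve_left (sub_ne_zero.mpr hζ1)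
    have hr2 : (r - (2 * (ζ + ζ ^ 4) + 1)) * (r + (2 * (ζ + ζ ^ 4) + 1)) = 0 := by
      linear_combination hr - 4 * hcyc - (8 + 4 * ζ ^ 3) * hζ5
    rcases mul_eq_zero.mp hr2 with h | h
    · refine ⟨ζ - ζ ^ 4, ?_⟩
      apply mul_left_cancel₀ h2
      linear_combination hw - h - 2 * hcyc + (4 - 2 * ζ ^ 3) * hζ5
    · refine ⟨ζ ^ 2 - ζ ^ 3, ?_⟩
      apply mul_left_cancel₀ h2
      linear_combination hw - h + (4 - 2 * ζ) * hζ5

end five

end Pool.Agent.T2h13.SC
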