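import Pool.Agent.T2h13.SC.LoopPt

set_option autoImplicit false
set_option maxHeartbeats 4000000
set_option synthInstance.maxHeartbeats 400000

/-!
# Identities at the point of discriminant `-60`
-/

namespace Pool.Agent.T2h13.SC

section alg

variable {S : Type*} [CommRing S]

/-- the identities of the loop -/
theorem loop_ids {r t i x y l l' : S} (hr : r ^ 2 = 5) (ht : t ^ 2 = -3) (hi : 2 * i = 1)
    (hx : x = i * ((3 + 2 * r) + (2 + r) * t)) (hy : y = i * ((3 - 2 * r) + (r - 2) * t))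
    (hl : l = i * (1 - 7 * (r * t) - 16 * t)) (hl' : l' = i * (1 - 7 * (r * t) + 16 * t)) :
    l = 1 - x ^ 2 ∧ l' = 1 - y ^ 2 ∧ l' * (1 + x) ^ 2 = (1 - x) ^ 2 ∧ l * (1 + y) ^ 2 = (1 - y) ^ 2 ∧
    ((1 + x) * (1 + y)) ^ 2 = (1 + x) * (1 + y) - 4 ∧ 2 * ((1 + x) * (1 + y)) - 1 = r * t ∧
    2 * (x * y) = -7 - r * t := by
  subst hx hy hl hl'
  refine ⟨?_, ?_, ?_, ?_, ?_, ?_, ?_⟩ <;> grind

theorem loop_ne {r t i x y : S} (hr : r ^ 2 = 5) (ht : t ^ 2 = -3) (hi : 2 * i = 1)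
    (hx : x = i * ((3 + 2 * r) + (2 + r) * t)) (hy : y = i * ((3 - 2 * r) + (r - 2) * t)) :
    (x = 0 → (16 : S) = 0) ∧ (1 + x = 0 → (16 : S) = 0) ∧ (1 - x = 0 → (64 : S) = 0) ∧
    (y = 0 → (16 : S) = 0) ∧ (1 + y = 0 → (16 : S) = 0) ∧ (1 - y = 0 → (64 : S) = 0) := by
  subst hx hy
  refine ⟨?_, ?_, ?_, ?_, ?_, ?_⟩ <;> intro h <;> grind

theorem t1 {r t E D C L : S} (hr : r ^ 2 = 5) (ht : t ^ 2 = -3)
    (he : E = (3 - (4 + r) * t)) (hd : D = (-8 * (29 + 13 * r) * t))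
    (hc : C = (3 * (3 - r) * t)) (hl : L = (1 - 7 * (r * t) - 16 * t)) :
    288 * E - 288 * (2 + L) = D * C ^ 2 := by
  subst he hd hc hl
  grind

theorem t2 {r t E D C L : S} (hr : r ^ 2 = 5) (ht : t ^ 2 = -3)
    (he : E = (3 - (4 + r) * t)) (hd : D = (-8 * (29 + 13 * r) * t))
    (hc : C = (3 * (3 - r) * t)) (hl : L = (1 - 7 * (r * t) - 16 * t)) :
    3 * E ^ 2 - 6 * (2 + L) * E + 18 * L = D * C := by
  subst he hd hc hl
  grind

theorem t3 {r t E D C L : S} (hr : r ^ 2 = 5) (ht : t ^ 2 = -3)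
    (he : E = (3 - (4 + r) * t)) (hd : D = (-8 * (29 + 13 * r) * t))
    (hc : C = (3 * (3 - r) * t)) (hl : L = (1 - 7 * (r * t) - 16 * t)) :
    E * (E - 6) * (E - 3 * L) = 24 * D := by
  subst he hd hc hl
  grind

/-- discriminant of the twist -/
theorem t4 {r t D C : S} (hr : r ^ 2 = 5) (ht : t ^ 2 = -3)
    (hd : D = (-8 * (29 + 13 * r) * t)) (hc : C = (3 * (3 - r) * t))
    (h : 4 * D * C ^ 3 = 124416) : (248832 : S) = 0 := by
  subst hd hc
  grind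

theorem t5 {r t D : S} (hr : r ^ 2 = 5) (ht : t ^ 2 = -3)
    (hd : D = (-8 * (29 + 13 * r) * t)) (h : D = 0) : (96 : S) = 0 := by
  subst hd
  grind

/-- the norm of `4 (l² - l + 1)` -/
theorem t6 {r t L : S} (hr : r ^ 2 = 5) (ht : t ^ 2 = -3) (hl : L = (1 - 7 * (r * t) - 16 * t))
    (h : L ^ 2 - 2 * L + 4 = 0) : (1980 : S) = 0 := by
  subst hl
  grind

theorem t7 {r t L : S} (hr : r ^ 2 = 5) (ht : t ^ 2 = -3) (hl : L = (1 - 7 * (r * t) - 16 * t))
    (h : L + 2 = 0) : (168 : S) = 0 := by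
  subst hl
  grind

theorem t8 {r t L : S} (hr : r ^ 2 = 5) (ht : t ^ 2 = -3) (hl : L = (1 - 7 * (r * t) - 16 * t))
    (h : L - 4 = 0) : (168 : S) = 0 := by
  subst hl
  grind

theorem t9 {r t L : S} (hr : r ^ 2 = 5) (ht : t ^ 2 = -3) (hl : L = (1 - 7 * (r * t) - 16 * t))
    (h : L - 1 = 0) : (33 : S) = 0 := by
  subst hl
  grind

/-- the twist and `√-15` -/
theorem t10 {r t s w i j d : S} (hr : r ^ 2 = 5) (ht : t ^ 2 = -3) (hs : s = r * t) (hi : 2 * i = 1)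
    (hj : 3 * j = 1) (hd : 9 * d = -8 * (29 + 13 * r) * t) (hw : 2 * w = -(5 + r)) :
    d * s = w * (4 * j * t * (2 + r)) ^ 2 := by
  subst hs
  have hd' : d = j ^ 2 * (-8 * (29 + 13 * r) * t) := by
    linear_combination (j ^ 2) * hd - (3 * j + 1) * d * hj
  have hw' : w = i * (-(5 + r)) := by linear_combination i * hw - w * hi
  subst hd' hw'
  grind

end alg

section field

variable {F : Type*} [Field F]

/-- the point of order three -/
theorem tors_id {r t e d c l z : F} (h2 : (2 : F) ≠ 0) (h3 : (3 : F) ≠ 0)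
    (hr : r ^ 2 = 5) (ht : t ^ 2 = -3)
    (e1 : 6 * e = 3 - (4 + r) * t) (e2 : 9 * d = -8 * (29 + 13 * r) * t)
    (e3 : 8 * c = 3 * (3 - r) * t) (e4 : 2 * l = 1 - 7 * (r * t) - 16 * t) :
    (z + e) * (z + e - 1) * (z + e - l) = z ^ 3 + d * (c * z + 1) ^ 2 := by
  have k1 := t1 hr ht e1 e2 e3 e4
  have k2 := t2 hr ht e1 e2 e3 e4
  have k3 := t3 hr ht e1 e2 e3 e4
  have a1 : 3 * e - (1 + l) = d * c ^ 2 := by
    have : (2 ^ 6 * 3 ^ 2 : F) * (3 * e - (1 + l) - d * c ^ 2) = 0 := by linear_combination k1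
    have := (mul_eq_zero.mp this).resolve_left (mul_ne_zero (pow_ne_zero _ h2) (pow_ne_zero _ h3))
    linear_combination this
  have a2 : 3 * e ^ 2 - 2 * (1 + l) * e + l = 2 * (d * c) := by
    have : (2 ^ 2 * 3 ^ 2 : F) * (3 * e ^ 2 - 2 * (1 + l) * e + l - 2 * (d * c)) = 0 := by
      linear_combination k2
    have := (mul_eq_zero.mp this).resolve_left (mul_ne_zero (pow_ne_zero _ h2) (pow_ne_zero _ h3))
    linear_combination this
  have a3 : e * (e - 1) * (e - l) = d := by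
    have : (2 ^ 3 * 3 ^ 3 : F) * (e * (e - 1) * (e - l) - d) = 0 := by linear_combination k3
    have := (mul_eq_zero.mp this).resolve_left (mul_ne_zero (pow_ne_zero _ h2) (pow_ne_zero _ h3))
    linear_combination this
  linear_combination z ^ 2 * a1 + z * a2 + a3

end field

end Pool.Agent.T2h13.SC
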