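import Pool.Agent.T2h13.SC.Can
import Pool.Agent.T2h13.SC.LoopTr
import Pool.Agent.T2h13.SC.Sgn
import Pool.Agent.T2h13.SC.Tors15
import Pool.Agent.Q267.MW.Leg7

set_option autoImplicit false
set_option maxHeartbeats 4000000
set_option synthInstance.maxHeartbeats 400000

/-!
# The Legendre polynomial at `7√-15 + 16√-3` modulo `p²`
-/

namespace Pool.Agent.T2h13.SC

open Finset Pool.Agent.Q267.CDE
open Pool.Agent.Q267.Seven (dl)
open Pool.Agent.Q267.MW (leg_cast)

variable (p m : ℕ) [hp : Fact p.Prime]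

/-- small numbers are units modulo `p` -/
theorem small_ne {n : ℕ} (hn : ∀ q : ℕ, q.Prime → q ∣ n → q ≤ 11 ∧ q ≠ 1) (hp11 : 11 < p) :
    ((n : ℕ) : ZMod p) ≠ 0 := by
  rw [Ne, ZMod.natCast_eq_zero_iff]
  intro h
  have := (hn p hp.out h).1
  omega

/-- the data in `ZMod p` -/
theorem loop15 (h2 : (2 : ZMod p) ≠ 0) {r t i : ZMod p} (hr : r ^ 2 = 5) (ht : t ^ 2 = -3) (hi : 2 * i = 1) :
    Loop (i * ((3 + 2 * r) + (2 + r) * t)) (i * ((3 - 2 * r) + (r - 2) * t))
      (i * (1 - 7 * (r * t) - 16 * t)) (i * (1 - 7 * (r * t) + 16 * t)) := by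
  obtain ⟨h1, h2', h3, h4, -, -, -⟩ := loop_ids hr ht hi rfl rfl rfl rfl
  obtain ⟨k1, k2, k3, k4, k5, k6⟩ := loop_ne hr ht hi rfl rfl
  have n16 : (16 : ZMod p) ≠ 0 := by
    have : (16 : ZMod p) = 2 ^ 4 := by norm_num
    rw [this]; exact pow_ne_zero _ h2
  have n64 : (64 : ZMod p) ≠ 0 := by
    have : (64 : ZMod p) = 2 ^ 6 := by norm_num
    rw [this]; exact pow_ne_zero _ h2
  exact
    { hl := h1
      hl' := h2'
      h1 := h3
      h2 := h4
      x0 := fun h => n16 (k1 h)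
      x1 := fun h => n16 (k2 h)
      x2 := fun h => n64 (k3 h)
      y0 := fun h => n16 (k4 h)
      y1 := fun h => n16 (k5 h)
      y2 := fun h => n64 (k6 h) }

/-- the obstruction vanishes -/
theorem Ob15 (hpm : p = 2 * m + 1) (h2 : (2 : ZMod p) ≠ 0) (h240 : (240 : ZMod p) ≠ 0) {r t i : R p}
    (hr : r ^ 2 = 5) (ht : t ^ 2 = -3) (hi : 2 * i = 1) :
    Ob p m (i * (1 - 7 * (r * t) - 16 * t)) = 0 := by
  obtain ⟨h1, h2', h3, h4, -, -, h7⟩ := loop_ids hr ht hi rfl rfl rfl rfl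
  have hr' : (red p r) ^ 2 = 5 := by rw [← map_pow, hr, map_ofNat]
  have ht' : (red p t) ^ 2 = -3 := by rw [← map_pow, ht, map_neg, map_ofNat]
  have hi' : 2 * (red p i) = 1 := by
    have := congrArg (red p) hi
    rwa [map_mul, map_ofNat, map_one] at this
  have hL := loop15 p h2 hr' ht' hi'
  set X := i * ((3 + 2 * r) + (2 + r) * t) with hX
  set Y := i * ((3 - 2 * r) + (r - 2) * t) with hY
  set L := i * (1 - 7 * (r * t) - 16 * t) with hLd
  set L' := i * (1 - 7 * (r * t) + 16 * t) with hLd'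
  have eX : red p X = (red p i) * ((3 + 2 * (red p r)) + (2 + (red p r)) * (red p t)) := by
    rw [hX]; simp only [map_mul, map_add, map_ofNat]
  have eY : red p Y = (red p i) * ((3 - 2 * (red p r)) + ((red p r) - 2) * (red p t)) := by
    rw [hY]; simp only [map_mul, map_add, map_sub, map_ofNat]
  rw [← eX, ← eY] at hL
  have a := landen_step p m hpm X L' hL.x0 (by rw [map_sub, map_one]; exact hL.x2)
    (by rw [map_add, map_one]; exact hL.x1) h3
  have b := landen_step p m hpm Y L hL.y0 (by rw [map_sub, map_one]; exact hL.y2)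
    (by rw [map_add, map_one]; exact hL.y1) h4
  rw [← h1] at a
  rw [← h2'] at b
  have c : (red p X * red p Y - 4) * Ob p m L = 0 := by
    linear_combination (red p X) * b.2 + 2 * a.2
  rcases mul_eq_zero.mp c with h | h
  · exfalso
    apply h240
    have e7 : 2 * (red p X * red p Y) = -7 - red p r * red p t := by
      have := congrArg (red p) h7
      simpa only [map_mul, map_sub, map_neg, map_ofNat] using this
    have e8 : red p r * red p t = -15 := by linear_combination e7 - 2 * h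
    have e9 : (red p r * red p t) ^ 2 = -15 := by
      rw [mul_pow, hr', ht']; norm_num
    rw [e8] at e9
    linear_combination e9
  · exact h

/-- the substitution `z = l x` -/
theorem leg_sub (l : ZMod p) (hl : l ≠ 0) :
    ∑ z : ZMod p, quadraticChar (ZMod p) (z * (z - 1) * (z - l)) =
      ∑ x : ZMod p, quadraticChar (ZMod p) (x * (1 - x) * (1 - l * x)) := by
  symm
  refine Fintype.sum_equiv (Equiv.mulLeft₀ l hl) _ _ fun x => ?_
  show _ = quadraticChar (ZMod p) ((l * x) * (l * x - 1) * (l * x - l))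
  rw [show (l * x) * (l * x - 1) * (l * x - l) = l ^ 2 * (x * (1 - x) * (1 - l * x)) by ring,
    map_mul (quadraticChar (ZMod p)) (l ^ 2), quadraticChar_sq_one' hl, one_mul]

/-- `15` is not a problem -/
theorem jac15 (u : ℤ) : jacobiSym u 15 = jacobiSym u 3 * jacobiSym u 5 := by
  rw [show (15 : ℕ) = 3 * 5 by norm_num, jacobiSym.mul_right]

theorem jac3 (u : ℤ) : (jacobiSym u 3 = 1 ∧ u % 3 = 1) ∨ (jacobiSym u 3 = -1 ∧ u % 3 = 2) ∨
    (jacobiSym u 3 = 0 ∧ u % 3 = 0) := by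
  rw [jacobiSym.mod_left]
  have h1 : 0 ≤ u % 3 := Int.emod_nonneg _ (by norm_num)
  have h2 : u % 3 < 3 := Int.emod_lt_of_pos _ (by norm_num)
  have h3 : ((3 : ℕ) : ℤ) = 3 := by norm_num
  rw [h3]
  interval_cases h : u % 3
  · right; right; exact ⟨by norm_num, rfl⟩
  · left; exact ⟨by norm_num, rfl⟩
  · right; left; exact ⟨by norm_num, rfl⟩

theorem jac5 (u : ℤ) : (jacobiSym u 5 = 1 ∧ (u ^ 2) % 5 = 1) ∨ (jacobiSym u 5 = -1 ∧ (u ^ 2) % 5 = 4) ∨
    (jacobiSym u 5 = 0 ∧ (u ^ 2) % 5 = 0) := by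
  rw [jacobiSym.mod_left]
  have h1 : 0 ≤ u % 5 := Int.emod_nonneg _ (by norm_num)
  have h2 : u % 5 < 5 := Int.emod_lt_of_pos _ (by norm_num)
  have h3 : ((5 : ℕ) : ℤ) = 5 := by norm_num
  have h4 : (u ^ 2) % 5 = ((u % 5) ^ 2) % 5 := ((Int.mod_modEq u 5).pow 2).symm
  rw [h3, h4]
  interval_cases h : u % 5
  · right; right; exact ⟨by norm_num, rfl⟩
  · left; exact ⟨by norm_num, rfl⟩
  · right; left; exact ⟨by norm_num, rfl⟩
  · right; left; exact ⟨by norm_num, rfl⟩
  · left; exact ⟨by norm_num, rfl⟩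

/-- **The trace of the curve at `7√-15 + 16√-3`.** -/
theorem S15 (h11 : 11 < p) (u v : ℤ) (huv : (p : ℤ) = u ^ 2 + 15 * v ^ 2)
    (h3 : p % 3 = 1) {r t i : ZMod p} (hr : r ^ 2 = 5) (ht : t ^ 2 = -3) (hi : 2 * i = 1) :
    ∑ z : ZMod p, quadraticChar (ZMod p) (z * (z - 1) * (z - (i * (1 - 7 * (r * t) - 16 * t)))) =
      -(quadraticChar (ZMod p) (-1) * (quadraticChar (ZMod p) (-(r * t)) * jacobiSym u 15) * (2 * u)) := by
  have n2 : (2 : ZMod p) ≠ 0 := by exact_mod_cast cast_ne p 2 (by norm_num) (by omega)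
  have n3 : (3 : ZMod p) ≠ 0 := by exact_mod_cast cast_ne p 3 (by norm_num) (by omega)
  have n5 : (5 : ZMod p) ≠ 0 := by exact_mod_cast cast_ne p 5 (by norm_num) (by omega)
  have n7 : (7 : ZMod p) ≠ 0 := by exact_mod_cast cast_ne p 7 (by norm_num) (by omega)
  have n11 : (11 : ZMod p) ≠ 0 := by exact_mod_cast cast_ne p 11 (by norm_num) (by omega)
  have hpu : ¬ (p : ℤ) ∣ u := by
    intro h
    have hpr : Prime (p : ℤ) := Nat.prime_iff_prime_int.mp hp.out
    have h1 : (p : ℤ) ∣ 15 * v ^ 2 := by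
      have : (15 : ℤ) * v ^ 2 = p - u * u := by rw [huv]; ring
      rw [this]
      exact dvd_sub (dvd_refl _) (Dvd.dvd.mul_right h u)
    have h2 : (p : ℤ) ∣ v := by
      rcases hpr.dvd_or_dvd h1 with h | h
      · exfalso
        have h15 : p ∣ 15 := by exact_mod_cast h
        have h15' : p ∣ 3 * 5 := by norm_num; exact h15
        rcases hp.out.dvd_mul.mp h15' with h | h
        · have := Nat.le_of_dvd (by norm_num) h; omega
        · have := Nat.le_of_dvd (by norm_num) h; omega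
      · exact hpr.dvd_of_dvd_pow h
    obtain ⟨a, ha⟩ := h
    obtain ⟨b, hb⟩ := h2
    rw [ha, hb] at huv
    have h3 : (p : ℤ) * (1 - p * (a ^ 2 + 15 * b ^ 2)) = 0 := by linear_combination huv
    have h4 := (mul_eq_zero.mp h3).resolve_left (by exact_mod_cast hp.out.ne_zero)
    have h5 : (p : ℤ) ∣ 1 := ⟨a ^ 2 + 15 * b ^ 2, by linear_combination h4⟩
    have : p ∣ 1 := by exact_mod_cast h5
    exact hp.out.one_lt.ne' (Nat.dvd_one.mp this)
  obtain ⟨j, hj⟩ : ∃ j : ZMod p, 3 * j = 1 := ⟨3⁻¹, mul_inv_cancel₀ n3⟩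
  set l := i * (1 - 7 * (r * t) - 16 * t) with hl
  have hLp := loop15 p n2 hr ht hi
  obtain ⟨-, -, -, -, h5', h6', -⟩ := loop_ids hr ht hi rfl rfl rfl rfl
  rw [← hl] at hLp
  have h2l : 2 * l = 1 - 7 * (r * t) - 16 * t := by
    rw [hl]; linear_combination (1 - 7 * (r * t) - 16 * t) * hi
  have hca : ca l ≠ 0 := by
    intro h
    have n1980 : (1980 : ZMod p) ≠ 0 := by
      have : (1980 : ZMod p) = 2 ^ 2 * 3 ^ 2 * 5 * 11 := by norm_num
      rw [this]
      exact mul_ne_zero (mul_ne_zero (mul_ne_zero (pow_ne_zero _ n2) (pow_ne_zero _ n3)) n5) n11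
    apply n1980
    refine t6 hr ht h2l ?_
    have e : 3 * ca l = -(l ^ 2 - l + 1) := by
      unfold ca hh
      field_simp
      ring
    rw [h] at e
    linear_combination 4 * e
  have n168 : (168 : ZMod p) ≠ 0 := by
    have : (168 : ZMod p) = 2 ^ 3 * 3 * 7 := by norm_num
    rw [this]
    exact mul_ne_zero (mul_ne_zero (pow_ne_zero _ n2) n3) n7
  have n33 : (33 : ZMod p) ≠ 0 := by
    have : (33 : ZMod p) = 3 * 11 := by norm_num
    rw [this]
    exact mul_ne_zero n3 n11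
  have hcb : cb l ≠ 0 := by
    intro h
    have e : 27 * cb l = -((1 + l) * (2 * l - 1) * (l - 2)) := by
      unfold cb hh
      field_simp
      ring
    rw [h, mul_zero] at e
    have e' : (1 + l) * (2 * l - 1) * (l - 2) = 0 := by linear_combination e
    rcases mul_eq_zero.mp e' with h | h
    · rcases mul_eq_zero.mp h with h | h
      · exact n168 (t7 hr ht h2l (by linear_combination 2 * h))
      · exact n33 (t9 hr ht h2l (by linear_combination h))
    · exact n168 (t8 hr ht h2l (by linear_combination 2 * h))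
  -- the sum up to sign
  have hS : ∃ σ : ℤ, (σ = 1 ∨ σ = -1) ∧
      ∑ z : ZMod p, quadraticChar (ZMod p) (z * (z - 1) * (z - l)) = 2 * (σ * u) := by
    have hsq : ((u : ZMod p) - (v : ZMod p) * (r * t)) * ((u : ZMod p) + (v : ZMod p) * (r * t)) = 0 := by
      have h1 := congrArg (Int.cast : ℤ → ZMod p) huv
      push_cast at h1
      rw [ZMod.natCast_self] at h1
      have h2 : (r * t) ^ 2 = -15 := by rw [mul_pow, hr, ht]; norm_num
      linear_combination -h1 - (v : ZMod p) ^ 2 * h2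
    have main : ∀ w : ℤ, (p : ℤ) = u ^ 2 + 15 * w ^ 2 → ((u : ZMod p) + (w : ZMod p) * (r * t)) = 0 →
        ∃ σ : ℤ, (σ = 1 ∨ σ = -1) ∧
        ∑ z : ZMod p, quadraticChar (ZMod p) (z * (z - 1) * (z - l)) = 2 * (σ * u) := by
      intro w hw h0
      rcases loop_trace n2 n3 hLp (by omega) h5' hca hcb (u - w) (2 * w) (by rw [hw]; ring)
        (by
          push_cast
          linear_combination h0 + (w : ZMod p) * h6') with h | h
      · exact ⟨1, Or.inl rfl, by rw [h]; ring⟩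
      · exact ⟨-1, Or.inr rfl, by rw [h]; ring⟩
    rcases mul_eq_zero.mp hsq with h | h
    · exact main (-v) (by rw [huv]; ring) (by push_cast; linear_combination h)
    · exact main v huv h
  obtain ⟨σ, hσ, hS⟩ := hS
  -- the point of order three
  obtain ⟨e, he⟩ : ∃ e : ZMod p, 6 * e = 3 - (4 + r) * t :=
    ⟨i * j * (3 - (4 + r) * t), by linear_combination (3 * (3 - (4 + r) * t) * j) * hi + (3 - (4 + r) * t) * hj⟩
  obtain ⟨d, hd⟩ : ∃ d : ZMod p, 9 * d = -8 * (29 + 13 * r) * t :=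
    ⟨j ^ 2 * (-8 * (29 + 13 * r) * t), by linear_combination (-8 * (29 + 13 * r) * t) * (3 * j + 1) * hj⟩
  obtain ⟨c, hc⟩ : ∃ c : ZMod p, 8 * c = 3 * (3 - r) * t :=
    ⟨i ^ 3 * (3 * (3 - r) * t), by linear_combination (3 * (3 - r) * t) * (4 * i ^ 2 + 2 * i + 1) * hi⟩
  have hd0 : d ≠ 0 := by
    intro h
    have n96 : (96 : ZMod p) ≠ 0 := by
      have : (96 : ZMod p) = 2 ^ 5 * 3 := by norm_num
      rw [this]
      exact mul_ne_zero (pow_ne_zero _ n2) n3
    exact n96 (t5 hr ht hd (by rw [h, mul_zero]))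
  have hdisc : 4 * d * c ^ 3 ≠ 27 := by
    intro h
    have nn : (248832 : ZMod p) ≠ 0 := by
      have : (248832 : ZMod p) = 2 ^ 10 * 3 ^ 5 := by norm_num
      rw [this]
      exact mul_ne_zero (pow_ne_zero _ n2) (pow_ne_zero _ n3)
    exact nn (t4 hr ht hd hc (by linear_combination 4608 * h))
  have h3d := three_sum n2 hd0 hdisc (fun z => tors_id n2 n3 hr ht he hd hc h2l)
  rw [hS] at h3d
  -- the quadratic symbols
  obtain ⟨w, hw⟩ : ∃ w : ZMod p, 2 * w = -(5 + r) :=
    ⟨i * (-(5 + r)), by linear_combination (-(5 + r)) * hi⟩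
  have h10 := t10 hr ht rfl hi hj hd hw
  have hfive := five_sq n2 n5 hr hw
  have ht0 : t ≠ 0 := by
    intro h
    rw [h] at ht
    exact n3 (by linear_combination ht)
  have hr0 : r ≠ 0 := by
    intro h
    rw [h] at hr
    exact n5 (by linear_combination -hr)
  have hw0 : w ≠ 0 := by
    intro h
    rw [h] at h10
    rw [zero_mul] at h10
    exact mul_ne_zero hd0 (mul_ne_zero hr0 ht0) h10
  have hk0 : 4 * j * t * (2 + r) ≠ 0 := by
    intro h
    rw [h] at h10
    rw [zero_pow two_ne_zero, mul_zero] at h10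
    exact mul_ne_zero hd0 (mul_ne_zero hr0 ht0) h10
  have hχ : quadraticChar (ZMod p) d * quadraticChar (ZMod p) (r * t) = quadraticChar (ZMod p) w := by
    rw [← map_mul, h10, map_mul, quadraticChar_sq_one' hk0, mul_one]
  have hp5 : (p : ℤ) % 5 = u ^ 2 % 5 := by omega
  have hp3 : (p : ℤ) % 3 = 1 := by omega
  have hw5 : quadraticChar (ZMod p) w = jacobiSym u 5 := by
    rcases jac5 u with ⟨h, h'⟩ | ⟨h, h'⟩ | ⟨h, h'⟩
    · rw [h, quadraticChar_one_iff_isSquare hw0, hfive]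
      omega
    · rw [h, quadraticChar_neg_one_iff_not_isSquare, hfive]
      omega
    · exfalso
      have h5p : 5 ∣ p := by omega
      rcases (Nat.dvd_prime hp.out).mp h5p with h | h <;> omega
  have hneg : quadraticChar (ZMod p) (-1) * quadraticChar (ZMod p) (-1) = 1 := by
    rw [← sq]
    exact quadraticChar_sq_one (neg_ne_zero.mpr one_ne_zero)
  have hs : quadraticChar (ZMod p) (-(r * t)) = quadraticChar (ZMod p) (-1) * quadraticChar (ZMod p) (r * t) := by
    rw [← map_mul, neg_one_mul]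
  rw [hS, hs, jac15]
  rw [hw5] at hχ
  have hrt := quadraticChar_dichotomy (mul_ne_zero hr0 ht0)
  have hdd := quadraticChar_dichotomy hd0
  have hσ3 : σ = -(quadraticChar (ZMod p) d * jacobiSym u 3) := by
    rcases jac3 u with ⟨h, h'⟩ | ⟨h, h'⟩ | ⟨h, h'⟩ <;> rcases hdd with h'' | h'' <;>
      rcases hσ with h4 | h4 <;> rw [h, h'', h4] <;> rw [h'', h4] at h3d <;> omega
  have hfin : σ = -(quadraticChar (ZMod p) (r * t) * (jacobiSym u 3 * jacobiSym u 5)) := by
    rw [hσ3]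
    have h7 : quadraticChar (ZMod p) (r * t) * quadraticChar (ZMod p) (r * t) = 1 := by
      rcases hrt with h | h <;> rw [h] <;> norm_num
    linear_combination (-(jacobiSym u 3 * quadraticChar (ZMod p) (r * t))) * hχ +
      (quadraticChar (ZMod p) d * jacobiSym u 3) * h7
  rw [hfin]
  linear_combination ((quadraticChar (ZMod p) (r * t) * (jacobiSym u 3 * jacobiSym u 5)) * (2 * u)) * hneg

/-- `p` does not divide `u` -/
theorem ndvd_u (h11 : 11 < p) (u v : ℤ) (huv : (p : ℤ) = u ^ 2 + 15 * v ^ 2) : ¬ (p : ℤ) ∣ u := by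
  intro h
  have hpr : Prime (p : ℤ) := Nat.prime_iff_prime_int.mp hp.out
  have h1 : (p : ℤ) ∣ 15 * v ^ 2 := by
    have : (15 : ℤ) * v ^ 2 = p - u * u := by rw [huv]; ring
    rw [this]
    exact dvd_sub (dvd_refl _) (Dvd.dvd.mul_right h u)
  have h2 : (p : ℤ) ∣ v := by
    rcases hpr.dvd_or_dvd h1 with h | h
    · exfalso
      have h15 : p ∣ 15 := by exact_mod_cast h
      have h15' : p ∣ 3 * 5 := by norm_num; exact h15
      rcases hp.out.dvd_mul.mp h15' with h | h
      · have := Nat.le_of_dvd (by norm_num) h; omega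
      · have := Nat.le_of_dvd (by norm_num) h; omega
    · exact hpr.dvd_of_dvd_pow h
  obtain ⟨a, ha⟩ := h
  obtain ⟨b, hb⟩ := h2
  rw [ha, hb] at huv
  have h3 : (p : ℤ) * (1 - p * (a ^ 2 + 15 * b ^ 2)) = 0 := by linear_combination huv
  have h4 := (mul_eq_zero.mp h3).resolve_left (by exact_mod_cast hp.out.ne_zero)
  have h5 : (p : ℤ) ∣ 1 := ⟨a ^ 2 + 15 * b ^ 2, by linear_combination h4⟩
  have : p ∣ 1 := by exact_mod_cast h5
  exact hp.out.one_lt.ne' (Nat.dvd_one.mp this)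

/-- **The Legendre polynomial at `7√-15 + 16√-3` modulo `p²`**, with denominators cleared. -/
theorem leg15 (hpm : p = 2 * m + 1) (h11 : 11 < p) (u v : ℤ) (huv : (p : ℤ) = u ^ 2 + 15 * v ^ 2)
    (h3 : p % 3 = 1) {s t i : R p} (hs : s ^ 2 = -15) (ht : t ^ 2 = -3) (hi : 2 * i = 1) :
    2 * (u : R p) * (∑ k ∈ range (m + 1), (dl m k : R p) * (i * (1 - 7 * s - 16 * t)) ^ k) =
      ((quadraticChar (ZMod p) (-(red p s)) * jacobiSym u 15 : ℤ) : R p) * (4 * (u : R p) ^ 2 - p) := by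
  have hm : 0 < m := by omega
  have n2 : (2 : ZMod p) ≠ 0 := by exact_mod_cast cast_ne p 2 (by norm_num) (by omega)
  have n3 : (3 : ZMod p) ≠ 0 := by exact_mod_cast cast_ne p 3 (by norm_num) (by omega)
  have n5 : (5 : ZMod p) ≠ 0 := by exact_mod_cast cast_ne p 5 (by norm_num) (by omega)
  have n240 : (240 : ZMod p) ≠ 0 := by
    have : (240 : ZMod p) = 2 ^ 4 * 3 * 5 := by norm_num
    rw [this]
    exact mul_ne_zero (mul_ne_zero (pow_ne_zero _ n2) n3) n5
  obtain ⟨j, hj⟩ : ∃ j : R p, 3 * j = 1 := by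
    have : IsUnit (3 : R p) := isUnit_of_red p (by rw [map_ofNat]; exact n3)
    obtain ⟨w, hw⟩ := this
    exact ⟨((w⁻¹ : (R p)ˣ) : R p), by rw [← hw]; exact w.mul_inv⟩
  obtain ⟨r, hr, hrt⟩ : ∃ r : R p, r ^ 2 = 5 ∧ r * t = s := by
    refine ⟨-(j * s * t), ?_, ?_⟩
    · linear_combination (j ^ 2 * t ^ 2) * hs - 15 * j ^ 2 * ht + 5 * (3 * j + 1) * hj
    · linear_combination (-(j * s)) * ht + s * hj
  have hr' : (red p r) ^ 2 = 5 := by rw [← map_pow, hr, map_ofNat]
  have ht' : (red p t) ^ 2 = -3 := by rw [← map_pow, ht, map_neg, map_ofNat]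
  have hi' : 2 * (red p i) = 1 := by
    have := congrArg (red p) hi
    rwa [map_mul, map_ofNat, map_one] at this
  have hO := Ob15 p m hpm n2 n240 hr ht hi
  have hT := S15 p h11 u v huv h3 hr' ht' hi'
  have hLp := loop15 p n2 hr' ht' hi'
  rw [← hrt]
  set L := i * (1 - 7 * (r * t) - 16 * t) with hL
  have eL : red p L = red p i * (1 - 7 * (red p r * red p t) - 16 * red p t) := by
    rw [hL]
    simp only [map_mul, map_sub, map_one, map_ofNat]
  rw [← eL] at hT hLp
  have hl0 : red p L ≠ 0 := by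
    rw [hLp.hl, show (1 : ZMod p) - ((red p) i * (3 + 2 * (red p) r + (2 + (red p) r) * (red p) t)) ^ 2 =
      (1 - ((red p) i * (3 + 2 * (red p) r + (2 + (red p) r) * (red p) t))) *
      (1 + ((red p) i * (3 + 2 * (red p) r + (2 + (red p) r) * (red p) t))) by ring]
    exact mul_ne_zero hLp.x2 hLp.x1
  have hl1 : red p L ≠ 1 := by
    intro h
    have := hLp.hl
    rw [h] at this
    exact pow_ne_zero 2 hLp.x0 (by linear_combination this)
  rw [leg_sub p _ hl0, ← map_mul] at hT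
  set ε : ℤ := quadraticChar (ZMod p) (-(red p (r * t))) * jacobiSym u 15 with hε
  have ha := leg_cast p m hpm hm (red p L)
  rw [hT] at ha
  have hk := key_of_Ob p m hpm hm L (((quadraticChar (ZMod p) (-1) * ε * (2 * u) : ℤ)) : R p) hl0 hl1 hO
    (by rw [ha]; push_cast; ring)
  have hqm : ((quadraticChar (ZMod p) (-1) : ℤ) : R p) = (-1) ^ m := by
    rw [Pool.Agent.Q267.MW.qc_om p m hpm hm, om_neg p ⟨m, hpm⟩, om_one]
  have hmm : ((-1 : R p) ^ m) * (-1) ^ m = 1 := by
    rw [← mul_pow]; norm_num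
  set F := ∑ k ∈ range (m + 1), (dl m k : R p) * L ^ k with hF
  have hb : (-1) ^ m * (((quadraticChar (ZMod p) (-1) * ε * (2 * u) : ℤ)) : R p) = (ε : R p) * (2 * u) := by
    push_cast
    rw [hqm]
    linear_combination ((ε : R p) * (2 * u)) * hmm
  rw [hb] at hk
  -- `ε² = 1`
  have hs0 : red p (r * t) ≠ 0 := by
    intro h
    have h1 : (red p (r * t)) ^ 2 = -15 := by
      rw [map_mul, mul_pow, hr', ht']; norm_num
    rw [h] at h1
    apply mul_ne_zero n3 n5
    linear_combination h1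
  have hε2 : ε * ε = 1 := by
    have e1 : quadraticChar (ZMod p) (-(red p (r * t))) * quadraticChar (ZMod p) (-(red p (r * t))) = 1 := by
      rw [← sq]
      exact quadraticChar_sq_one (neg_ne_zero.mpr hs0)
    have hp5 : (p : ℤ) % 5 = u ^ 2 % 5 := by omega
    have e2 : jacobiSym u 3 * jacobiSym u 3 = 1 := by
      rcases jac3 u with ⟨h, h'⟩ | ⟨h, h'⟩ | ⟨h, h'⟩
      · rw [h]; norm_num
      · rw [h]; norm_num
      · exfalso
        obtain ⟨k, hk⟩ := Int.dvd_of_emod_eq_zero h'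
        rw [hk] at huv
        have : (3 : ℤ) ∣ p := ⟨3 * k ^ 2 + 5 * v ^ 2, by rw [huv]; ring⟩
        omega
    have e3 : jacobiSym u 5 * jacobiSym u 5 = 1 := by
      rcases jac5 u with ⟨h, h'⟩ | ⟨h, h'⟩ | ⟨h, h'⟩
      · rw [h]; norm_num
      · rw [h]; norm_num
      · exfalso
        have h5p : 5 ∣ p := by omega
        rcases (Nat.dvd_prime hp.out).mp h5p with h | h <;> omega
    rw [hε, jac15]
    linear_combination (jacobiSym u 3 * jacobiSym u 3 * (jacobiSym u 5 * jacobiSym u 5)) * e1 +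
      (jacobiSym u 5 * jacobiSym u 5) * e2 + e3
  have hε2' : (ε : R p) * ε = 1 := by exact_mod_cast congrArg (Int.cast : ℤ → R p) hε2
  -- `F` is a unit
  have hu0 : ((u : ℤ) : ZMod p) ≠ 0 := by
    rw [Ne, ZMod.intCast_zmod_eq_zero_iff_dvd]
    exact ndvd_u p h11 u v huv
  have hF0 : red p F ≠ 0 := by
    rw [← hk.2, map_mul, map_mul, map_intCast, map_intCast, map_ofNat]
    refine mul_ne_zero ?_ (mul_ne_zero n2 hu0)
    intro h
    have := congrArg (Int.cast : ℤ → ZMod p) hε2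
    push_cast at this
    rw [h, mul_zero] at this
    exact zero_ne_one this
  obtain ⟨G, hG⟩ : ∃ G : R p, F * G = 1 := by
    obtain ⟨w, hw⟩ := isUnit_of_red p hF0
    exact ⟨((w⁻¹ : (R p)ˣ) : R p), by rw [← hw]; exact w.mul_inv⟩
  set b : R p := (ε : R p) * (2 * u) with hbd
  have h1 : b = F + p * G := by linear_combination G * hk.1 + (F - b) * hG
  have h2 : b * F = b ^ 2 - p := by
    have h3 : b ^ 2 = F ^ 2 + 2 * p := by
      rw [h1]
      linear_combination G ^ 2 * p_sq p + 2 * (p : R p) * hG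
    linear_combination hk.1 - h3
  have h4 : b ^ 2 = 4 * (u : R p) ^ 2 := by
    rw [hbd]
    linear_combination (4 * (u : R p) ^ 2) * hε2'
  rw [hbd] at h2
  linear_combination (ε : R p) * h2 + (ε : R p) * h4 - (2 * (u : R p) * F) * hε2'

end Pool.Agent.T2h13.SC
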