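import Pool.Agent.Q267.MW.D7

set_option autoImplicit false
set_option maxHeartbeats 4000000
set_option synthInstance.maxHeartbeats 400000

/-!
# The endomorphism of degree four of a Legendre curve with a loop of two Landen isogenies
-/

namespace Pool.Agent.T2h13.SC

open Polynomial Pool.Agent.Q267.MW

section alg

variable {K : Type*} [Field K]

/-- first coordinate of the Landen isogeny -/
def W1 (x l X : K) : K := X * (X - l) / ((X - 1) * (1 + x) ^ 2)

/-- factor of the second coordinate -/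
def S1 (x l X : K) : K := (X ^ 2 - 2 * X + l) / ((X - 1) ^ 2 * (1 + x) ^ 3)

theorem isog_eqn (x l l' X : K) (hl : l = 1 - x ^ 2) (hl' : l' * (1 + x) ^ 2 = (1 - x) ^ 2)
    (hx : 1 + x ≠ 0) (hX : X - 1 ≠ 0) :
    W1 x l X * (W1 x l X - 1) * (W1 x l X - l') = X * (X - 1) * (X - l) * (S1 x l X) ^ 2 := by
  have e : l' = (1 - x) ^ 2 / (1 + x) ^ 2 := by
    rw [eq_div_iff (pow_ne_zero 2 hx)]; exact hl'
  rw [e, hl]
  unfold W1 S1
  field_simp
  ring

end alg

noncomputable section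

variable {F : Type*} [Field F]

/-- derivative of the Landen isogeny -/
theorem isog_der (x l : F) (X : RatFunc F) (hl : l = 1 - x ^ 2) (hx : 1 + x ≠ 0) (hX : X - 1 ≠ 0) :
    rd (W1 (io (C x)) (io (C l)) X) = io (C (1 + x)) * S1 (io (C x)) (io (C l)) X * rd X := by
  have hxk : 1 + io (C x) ≠ 0 := by
    have := io_ne (C_ne_zero.mpr hx)
    rwa [C_add, map_add, C_1, map_one] at this
  have hlk : io (C l) = 1 - io (C x) ^ 2 := by
    rw [hl, C_sub, C_pow, C_1, map_sub, map_pow, map_one]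
  have hden : (X - 1) * (1 + io (C x)) ^ 2 ≠ 0 := mul_ne_zero hX (pow_ne_zero 2 hxk)
  have r1 : rd (1 : RatFunc F) = 0 := by
    have := rd_const (1 : F)
    rwa [C_1, map_one] at this
  have r2 : rd ((1 + io (C x)) ^ 2) = 0 := by
    have h : (1 + io (C x)) ^ 2 = io (C ((1 + x) ^ 2)) := by
      simp only [C_pow, C_add, C_1, map_pow, map_add, map_one]
    rw [h, rd_const]
  unfold W1 S1
  rw [rd_quot _ _ hden, rd_mul, rd_mul, rd_sub, rd_sub, r1, r2, rd_const, hlk, C_add, C_1, map_add,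
    map_one]
  field_simp
  ring

/-- data of a loop of two Landen isogenies -/
structure Loop (x y l l' : F) : Prop where
  hl : l = 1 - x ^ 2
  hl' : l' = 1 - y ^ 2
  h1 : l' * (1 + x) ^ 2 = (1 - x) ^ 2
  h2 : l * (1 + y) ^ 2 = (1 - y) ^ 2
  x0 : x ≠ 0
  x1 : 1 + x ≠ 0
  x2 : 1 - x ≠ 0
  y0 : y ≠ 0
  y1 : 1 + y ≠ 0
  y2 : 1 - y ≠ 0

variable {x y l l' : F}

/-- the shift -/
def hh (l : F) : F := (1 + l) / 3

/-- coefficients of the short form -/
def ca (l : F) : F := l - 3 * (hh l) ^ 2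

def cb (l : F) : F := l * hh l - 2 * (hh l) ^ 3

theorem short_eq {R : Type*} [CommRing R] (h l T : R) (hh3 : 3 * h = 1 + l) :
    T ^ 3 + (l - 3 * h ^ 2) * T + (l * h - 2 * h ^ 3) = (T + h) * (T + h - 1) * (T + h - l) := by
  linear_combination (-(T + h) ^ 2) * hh3

theorem disc_eq (h3 : (3 : F) ≠ 0) (l : F) : 4 * (ca l) ^ 3 + 27 * (cb l) ^ 2 = -(l ^ 2 * (1 - l) ^ 2) := by
  unfold ca cb hh
  field_simp
  ring

/-- the generic abscissa on the Legendre form -/
def gX (l : F) : RatFunc F := io (X + C (hh l))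

theorem gX_sub (l : F) (e : F) : gX l - io (C e) = io (X - C (e - hh l)) := by
  unfold gX
  rw [← map_sub, C_sub]
  congr 1
  ring

theorem gX_ne (l e : F) : gX l - io (C e) ≠ 0 := by
  rw [gX_sub]
  exact io_ne (X_sub_C_ne_zero _)

theorem fp_gX (h3 : (3 : F) ≠ 0) (l : F) : io (fp (ca l) (cb l)) = gX l * (gX l - 1) * (gX l - io (C l)) := by
  have h := short_eq (C (hh l)) (C l) (X : F[X]) (by
    have e : (3 : F) * hh l = 1 + l := by unfold hh; field_simp
    have e' := congrArg (C : F → F[X]) e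
    rwa [C_mul, C_add, C_1, map_ofNat] at e')
  unfold fp gX ca cb
  rw [← map_one (io (F := F)), ← map_sub, ← map_sub, ← map_mul, ← map_mul, ← h]
  simp only [C_sub, C_mul, C_pow]
  rw [map_ofNat, map_ofNat]

/-- the abscissa of the endomorphism -/
def xA (x y l l' : F) : RatFunc F :=
  W1 (io (C y)) (io (C l')) (W1 (io (C x)) (io (C l)) (gX l)) - io (C (hh l))

/-- the ordinate of the endomorphism -/
def yA (x y l l' : F) : RatFunc F :=
  S1 (io (C y)) (io (C l')) (W1 (io (C x)) (io (C l)) (gX l)) * S1 (io (C x)) (io (C l)) (gX l)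

theorem one_add_k {x : F} (h : 1 + x ≠ 0) : 1 + io (C x) ≠ 0 := by
  have := io_ne (C_ne_zero.mpr h)
  rwa [C_add, map_add, C_1, map_one] at this

theorem gX_one (l : F) : gX l - 1 ≠ 0 := by
  have := gX_ne l 1
  rwa [C_1, map_one] at this

theorem W1_sub_one (hL : Loop x y l l') : W1 (io (C x)) (io (C l)) (gX l) - 1 =
    (gX l - 1 - io (C x)) ^ 2 / ((gX l - 1) * (1 + io (C x)) ^ 2) := by
  have hg := gX_one l
  have hx := one_add_k hL.x1
  have hlk : io (C l) = 1 - io (C x) ^ 2 := by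
    rw [hL.hl, C_sub, C_pow, C_1, map_sub, map_pow, map_one]
  unfold W1
  rw [hlk]
  field_simp
  ring

theorem W1_ne (hL : Loop x y l l') : W1 (io (C x)) (io (C l)) (gX l) - 1 ≠ 0 := by
  rw [W1_sub_one hL]
  have h1 := gX_ne l (1 + x)
  rw [C_add, map_add, C_1, map_one] at h1
  have h2 : gX l - 1 - io (C x) ≠ 0 := by
    rw [sub_sub]; exact h1
  exact div_ne_zero (pow_ne_zero 2 h2) (mul_ne_zero (gX_one l) (pow_ne_zero 2 (one_add_k hL.x1)))

theorem eqA (h3 : (3 : F) ≠ 0) (hL : Loop x y l l') :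
    io (fp (ca l) (cb l)) * (yA x y l l') ^ 2 =
      (xA x y l l') ^ 3 + io (C (ca l)) * xA x y l l' + io (C (cb l)) := by
  have cc : ∀ {a b : F}, a = 1 - b ^ 2 → io (C a) = 1 - io (C b) ^ 2 := by
    intro a b h
    rw [h, C_sub, C_pow, C_1, map_sub, map_pow, map_one]
  have k1 : io (C l') * (1 + io (C x)) ^ 2 = (1 - io (C x)) ^ 2 := by
    have := congrArg (fun z => io (C z)) hL.h1
    simpa only [C_mul, C_pow, C_add, C_sub, C_1, map_mul, map_pow, map_add, map_sub, map_one] using this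
  have k2 : io (C l) * (1 + io (C y)) ^ 2 = (1 - io (C y)) ^ 2 := by
    have := congrArg (fun z => io (C z)) hL.h2
    simpa only [C_mul, C_pow, C_add, C_sub, C_1, map_mul, map_pow, map_add, map_sub, map_one] using this
  have i1 := isog_eqn (io (C x)) (io (C l)) (io (C l')) (gX l) (cc hL.hl) k1 (one_add_k hL.x1) (gX_one l)
  have i2 := isog_eqn (io (C y)) (io (C l')) (io (C l)) (W1 (io (C x)) (io (C l)) (gX l)) (cc hL.hl') k2
    (one_add_k hL.y1) (W1_ne hL)
  have hs := short_eq (io (C (hh l))) (io (C l)) (xA x y l l') (by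
    have : (3 : RatFunc F) = io (C 3) := by rw [map_ofNat, map_ofNat]
    rw [this, ← map_mul, ← C_mul]
    have e : (3 : F) * hh l = 1 + l := by unfold hh; field_simp
    rw [e, C_add, C_1, map_add, map_one])
  have e1 : io (C (ca l)) = io (C l) - 3 * io (C (hh l)) ^ 2 := by
    unfold ca
    simp only [C_sub, C_mul, C_pow, map_sub, map_mul, map_pow]
    rw [map_ofNat, map_ofNat]
  have e2 : io (C (cb l)) = io (C l) * io (C (hh l)) - 2 * io (C (hh l)) ^ 3 := by
    unfold cb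
    simp only [C_sub, C_mul, C_pow, map_sub, map_mul, map_pow]
    rw [map_ofNat, map_ofNat]
  rw [e1, e2, hs, fp_gX h3]
  have e3 : xA x y l l' + io (C (hh l)) = W1 (io (C y)) (io (C l')) (W1 (io (C x)) (io (C l)) (gX l)) := by
    unfold xA; ring
  rw [e3, i2, i1]
  unfold yA
  ring

theorem derA (hL : Loop x y l l') :
    rd (xA x y l l') = io (C ((1 + x) * (1 + y))) * yA x y l l' := by
  unfold xA yA
  rw [rd_sub, rd_const, sub_zero, isog_der y l' _ hL.hl' hL.y1 (W1_ne hL),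
    isog_der x l _ hL.hl hL.x1 (gX_one l)]
  have : rd (gX l) = 1 := by
    unfold gX
    rw [rd_io, derivative_add, derivative_X, derivative_C, add_zero, map_one]
  rw [this, C_mul, map_mul]
  ring

/-- numerator -/
def nA (x y l : F) : F[X] := (X - C (0 - hh l)) * (X - C (l - hh l)) * (X - C (1 - x - hh l)) ^ 2 -
  C (hh l * ((1 + x) ^ 2 * (1 + y) ^ 2)) * ((X - C (1 - hh l)) * (X - C (1 + x - hh l)) ^ 2)

/-- denominator -/
def dA (x y l : F) : F[X] := C ((1 + x) ^ 2 * (1 + y) ^ 2) * ((X - C (1 - hh l)) * (X - C (1 + x - hh l)) ^ 2)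

theorem dA_ne (hL : Loop x y l l') : dA x y l ≠ 0 := by
  unfold dA
  refine mul_ne_zero (C_ne_zero.mpr (mul_ne_zero (pow_ne_zero 2 hL.x1) (pow_ne_zero 2 hL.y1)))
    (mul_ne_zero (X_sub_C_ne_zero _) (pow_ne_zero 2 (X_sub_C_ne_zero _)))

theorem ndA (hL : Loop x y l l') : io (nA x y l) / io (dA x y l) = xA x y l l' := by
  have g0 : io (X - C (0 - hh l)) = gX l := by rw [← gX_sub, C_0, map_zero, sub_zero]
  have g1 : io (X - C (1 - hh l)) = gX l - 1 := by rw [← gX_sub, C_1, map_one]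
  have g2 : io (X - C (l - hh l)) = gX l - io (C l) := by rw [← gX_sub]
  have g3 : io (X - C (1 - x - hh l)) = gX l - 1 + io (C x) := by
    rw [← gX_sub, C_sub, map_sub, C_1, map_one]; ring
  have g4 : io (X - C (1 + x - hh l)) = gX l - 1 - io (C x) := by
    rw [← gX_sub, C_add, map_add, C_1, map_one]; ring
  have hg := gX_one l
  have hx := one_add_k hL.x1
  have hy := one_add_k hL.y1
  have h4 : gX l - 1 - io (C x) ≠ 0 := by rw [← g4]; exact io_ne (X_sub_C_ne_zero _)
  have hlk : io (C l) = 1 - io (C x) ^ 2 := by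
    rw [hL.hl, C_sub, C_pow, C_1, map_sub, map_pow, map_one]
  have k1 : io (C l') = (1 - io (C x)) ^ 2 / (1 + io (C x)) ^ 2 := by
    rw [eq_div_iff (pow_ne_zero 2 hx)]
    have := congrArg (fun z => io (C z)) hL.h1
    simpa only [C_mul, C_pow, C_add, C_sub, C_1, map_mul, map_pow, map_add, map_sub, map_one] using this
  unfold xA
  rw [show W1 (io (C y)) (io (C l')) (W1 (io (C x)) (io (C l)) (gX l)) =
    W1 (io (C x)) (io (C l)) (gX l) * (W1 (io (C x)) (io (C l)) (gX l) - io (C l')) /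
      ((W1 (io (C x)) (io (C l)) (gX l) - 1) * (1 + io (C y)) ^ 2) from rfl, W1_sub_one hL]
  unfold nA dA
  simp only [map_sub, map_mul, map_pow, C_mul, C_pow, C_add, map_add, C_1, map_one] at g0 g1 g2 g3 g4 ⊢
  rw [g0, g1, g2, g3, g4]
  unfold W1
  rw [k1, hlk]
  field_simp
  ring

end

end Pool.Agent.T2h13.SC
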