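import Pool.Agent.T2h13.SC.Sym

set_option autoImplicit false
set_option maxHeartbeats 4000000
set_option synthInstance.maxHeartbeats 400000

/-!
# The Pell-weighted sum modulo `p²` for `p ≡ 7 (mod 8)`
-/

namespace Pool.Agent.T2h13.SC

open Finset Pool.Agent.Q267.CDE Polynomial
open Pool.Agent.Q267.Seven (dl dl_mod dl_sq)
open Pool.Agent.Q267.Landen (Ph cc dd A1 A2 B2 landen cc_symm)

/-- the Pell numbers -/
def pl : ℕ → ℤ
  | 0 => 0
  | 1 => 1
  | n + 2 => 2 * pl (n + 1) + pl n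

theorem pl_binet {S : Type*} [CommRing S] (s : S) (hs : s ^ 2 = 2) (n : ℕ) :
    2 * s * (pl n : S) = (1 + s) ^ n - (1 - s) ^ n ∧
    2 * s * (pl (n + 1) : S) = (1 + s) ^ (n + 1) - (1 - s) ^ (n + 1) := by
  induction n with
  | zero =>
    refine ⟨by simp [pl], ?_⟩
    have : pl (0 + 1) = 1 := rfl
    rw [this]
    push_cast
    ring
  | succ n ih =>
    refine ⟨ih.2, ?_⟩
    have : pl (n + 1 + 1) = 2 * pl (n + 1) + pl n := rfl
    rw [this]
    push_cast
    have h1 := ih.1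
    have h2 := ih.2
    rw [pow_succ, pow_succ] at h2
    linear_combination 2 * h2 + h1 - ((1 + s) ^ n - (1 - s) ^ n) * hs

section

variable (p m : ℕ) [hp : Fact p.Prime]

theorem landen_eval (hpm : p = 2 * m + 1) (x : ZMod p) :
    ∑ k ∈ range (m + 1), cc (ZMod p) m k * (1 - x) ^ (2 * k) * (1 + x) ^ (2 * (m - k)) =
      ∑ k ∈ range (m + 1), cc (ZMod p) m k * (1 - x ^ 2) ^ k := by
  have h2 : (2 : ZMod p) ≠ 0 := by
    have := cast_ne p 2 (by norm_num) (by have := hp.out.two_le; omega)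
    exact_mod_cast this
  have h := congrArg (Polynomial.eval x) (landen (K := ZMod p) p m hpm h2)
  unfold Ph A1 A2 B2 at h
  rw [eval_finsetSum, eval_finsetSum] at h
  simp only [eval_mul, eval_C, eval_pow, eval_sub, eval_add, eval_one, eval_X, one_pow, mul_one,
    pow_zero] at h
  have e1 : ∀ k, ((1 - x) ^ 2) ^ k = (1 - x) ^ (2 * k) := fun k => (pow_mul _ _ _).symm
  have e2 : ∀ k, ((1 + x) ^ 2) ^ (m - k) = (1 + x) ^ (2 * (m - k)) := fun k => (pow_mul _ _ _).symm
  simp only [e1, e2] at h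
  exact h

/-- the value at `-2(1+s)`, `s² = 2`, vanishes modulo `p` if `p ≡ 7 (mod 8)` -/
theorem f_zero (hpm : p = 2 * m + 1) (hodd : Odd m) (s : ZMod p) (hs : s ^ 2 = 2) :
    ∑ k ∈ range (m + 1), ((dl m k : ℤ) : ZMod p) * (-2 * (1 + s)) ^ k = 0 := by
  have h2 : (2 : ZMod p) ≠ 0 := by
    have := cast_ne p 2 (by norm_num) (by have := hp.out.two_le; omega)
    exact_mod_cast this
  have e0 : ∀ y : ZMod p, ∑ k ∈ range (m + 1), ((dl m k : ℤ) : ZMod p) * y ^ k =
      ∑ k ∈ range (m + 1), cc (ZMod p) m k * y ^ k := by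
    intro y
    refine sum_congr rfl fun k hk => ?_
    rw [dl_mod p m hpm k (by have := mem_range.mp hk; omega)]
  have hL := landen_eval p m hpm (1 + s)
  have e1 : 1 - (1 + s) ^ 2 = -2 * (1 + s) := by linear_combination -hs
  rw [e1] at hL
  have hs0 : s ≠ 0 := by
    rintro rfl
    apply h2
    rw [← hs]; ring
  have h2m : (2 : ZMod p) ^ m = 1 := by
    rw [← hs, ← pow_mul, show 2 * m = p - 1 by omega]
    exact ZMod.pow_card_sub_one_eq_one hs0
  have e2 : ∑ k ∈ range (m + 1), cc (ZMod p) m k * (1 - (1 + s)) ^ (2 * k) * (1 + (1 + s)) ^ (2 * (m - k)) =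
      ∑ k ∈ range (m + 1), cc (ZMod p) m k * ((1 + s) ^ 2) ^ k := by
    rw [← sum_range_reflect (fun k => cc (ZMod p) m k * ((1 + s) ^ 2) ^ k)]
    refine sum_congr rfl fun k hk => ?_
    have hk' : k ≤ m := by have := mem_range.mp hk; omega
    rw [show m + 1 - 1 - k = m - k by omega, cc_symm m k hk', pow_mul, pow_mul]
    have e3 : (1 - (1 + s)) ^ 2 = 2 := by linear_combination hs
    have e4 : (1 + (1 + s)) ^ 2 = 2 * (1 + s) ^ 2 := by linear_combination -hs
    rw [e3, e4, mul_pow, mul_assoc, ← mul_assoc (2 ^ k), ← pow_add, Nat.add_sub_cancel' hk', h2m,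
      one_mul]
  rw [e2] at hL
  have hr := dl_reflect m (-2 * (1 + s))
  have e5 : 1 - -2 * (1 + s) = (1 + s) ^ 2 := by linear_combination -hs
  rw [e5, e0, e0, hodd.neg_one_pow] at hr
  rw [e0]
  rw [hr] at hL
  have : (2 : ZMod p) * ∑ k ∈ range (m + 1), cc (ZMod p) m k * (-2 * (1 + s)) ^ k = 0 := by
    linear_combination -hL
  exact (mul_eq_zero.mp this).resolve_left h2

/-- a square root of `2` in `ℤ/p²` -/
theorem sqrt_two (hp2 : p ≠ 2) (t : ZMod p) (ht : t ^ 2 = 2) : ∃ s : R p, s ^ 2 = 2 ∧ red p s = t := by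
  have h2 : (2 : ZMod p) ≠ 0 := by
    have := cast_ne p 2 (by norm_num) (lt_of_le_of_ne hp.out.two_le (Ne.symm hp2))
    exact_mod_cast this
  have ht0 : t ≠ 0 := by
    rintro rfl
    apply h2
    rw [← ht]; ring
  obtain ⟨y, hy⟩ := exists_lift p t
  obtain ⟨e, he⟩ := red_eq_of p (y ^ 2) 2 (by rw [map_pow, hy, ht, map_ofNat])
  have hu : IsUnit (2 * y) := by
    apply isUnit_of_red
    rw [map_mul, map_ofNat, hy]
    exact mul_ne_zero h2 ht0
  obtain ⟨z, hz⟩ := hu.exists_right_inv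
  have hpp := p_sq p
  refine ⟨y - p * (e * z), ?_, ?_⟩
  · linear_combination he - p * e * hz + e ^ 2 * z ^ 2 * hpp
  · rw [map_sub, map_mul, red_nat, ZMod.natCast_self, zero_mul, sub_zero, hy]

/-- the integral form of the sum -/
def NN (p : ℕ) : ℤ := ∑ k ∈ range p, ((p - 1).choose k : ℤ) * pl k * 8 ^ (p - 1 - k) * ((2 * k).choose k : ℤ) ^ 2

theorem NN_zero (h7 : p % 8 = 7) : (p : ℤ) ^ 2 ∣ NN p := by
  obtain ⟨m, hpm⟩ : ∃ m, p = 2 * m + 1 := ⟨p / 2, by omega⟩
  have hodd : Odd m := by rw [Nat.odd_iff]; omega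
  have hp2 : p ≠ 2 := by omega
  have h2 : (2 : ZMod p) ≠ 0 := by
    have := cast_ne p 2 (by norm_num) (by omega)
    exact_mod_cast this
  obtain ⟨t, ht⟩ : ∃ t : ZMod p, t ^ 2 = 2 := by
    obtain ⟨t, ht⟩ := (ZMod.exists_sq_eq_two_iff hp2).mpr (Or.inr h7)
    exact ⟨t, by rw [ht]; ring⟩
  obtain ⟨s, hs, hst⟩ := sqrt_two p hp2 t ht
  have hpp := p_sq p
  have hu2 : IsUnit (2 : R p) := by
    have := isUnit_nat p 2 (by norm_num) (by omega)
    exact_mod_cast this
  have hus : IsUnit (2 * s) := by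
    apply isUnit_of_red
    rw [map_mul, map_ofNat, hst]
    refine mul_ne_zero h2 ?_
    rintro rfl
    apply h2
    rw [← ht]; ring
  suffices hz : ((NN p : ℤ) : R p) = 0 by
    rw [ZMod.intCast_zmod_eq_zero_iff_dvd] at hz
    exact_mod_cast hz
  apply hus.mul_left_cancel
  rw [mul_zero]
  obtain ⟨i8, hi8⟩ := (hu2.pow 3).exists_right_inv
  have hi8' : (8 : R p) * i8 = 1 := by rw [← hi8]; norm_num
  have e1 : 2 * s * ((NN p : ℤ) : R p) = 8 ^ (p - 1) * (A p m (-2 * (1 + s)) - A p m (-2 * (1 - s))) := by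
    have hsplit : ((NN p : ℤ) : R p) = ∑ k ∈ range (m + 1), (((2 * m).choose k : ℕ) : R p) * (pl k : R p) *
        8 ^ (p - 1 - k) * ((((2 * k).choose k : ℕ) : R p)) ^ 2 := by
      unfold NN
      push_cast
      rw [show p - 1 = 2 * m by omega]
      symm
      apply sum_subset
      · intro k hk
        rw [mem_range] at hk ⊢
        omega
      · intro k hk hk'
        rw [mem_range] at hk hk'
        have hd : p ∣ (2 * k).choose k := by
          have := hp.out.dvd_choose_add (a := k) (b := k) (by omega) (by omega) (by omega)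
          rwa [← two_mul] at this
        obtain ⟨c, hc⟩ := hd
        rw [hc]
        push_cast
        linear_combination ((((2 * m).choose k : ℕ) : R p) * (pl k : R p) * 8 ^ (2 * m - k) * (c : R p) ^ 2) * hpp
    rw [hsplit, mul_sum, mul_sub]
    unfold A
    rw [mul_sum, mul_sum, ← sum_sub_distrib]
    refine sum_congr rfl fun k hk => ?_
    have hk' : k ≤ m := by have := mem_range.mp hk; omega
    obtain ⟨c, hc⟩ := dl_sq p m hp.out hpm k hk'
    have hdl : (((2 * k).choose k : ℕ) : R p) ^ 2 = 16 ^ k * ((dl m k : ℤ) : R p) := by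
      have h := congrArg (Int.cast : ℤ → R p) hc
      push_cast at h
      have e : ((k.centralBinom : ℕ) : R p) = (((2 * k).choose k : ℕ) : R p) := rfl
      rw [e] at h
      linear_combination -h - (c : R p) * hpp
    have h8 : (8 : R p) ^ (p - 1) = 8 ^ (p - 1 - k) * 8 ^ k := by
      rw [← pow_add]; congr 1; omega
    have hb := (pl_binet s hs k).1
    have e2 : (-1 : R p) ^ k * (-2 * (1 + s)) ^ k = 2 ^ k * (1 + s) ^ k := by
      rw [← mul_pow, ← mul_pow]; congr 1; ring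
    have e3 : (-1 : R p) ^ k * (-2 * (1 - s)) ^ k = 2 ^ k * (1 - s) ^ k := by
      rw [← mul_pow, ← mul_pow]; congr 1; ring
    have e4 : (16 : R p) ^ k = 8 ^ k * 2 ^ k := by rw [← mul_pow]; norm_num
    have e5 : (((2 * m).choose k : ℕ) : R p) * ((dl m k : ℤ) : R p) = ((m.choose k : ℕ) : R p) * w p m k := by
      unfold w dl
      push_cast
      ring
    rw [hdl, e4, h8]
    linear_combination (((2 * m).choose k : ℕ) : R p) * 8 ^ (p - 1 - k) * 8 ^ k * 2 ^ k * ((dl m k : ℤ) : R p) * hb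
      + (8 ^ (p - 1 - k) * 8 ^ k * 2 ^ k * ((1 + s) ^ k - (1 - s) ^ k)) * e5
      - (8 ^ (p - 1 - k) * 8 ^ k * ((m.choose k : ℕ) : R p) * w p m k) * (e2 - e3)
  rw [e1]
  have hsym := A_sym p m hpm (-2 * (1 + s)) (-2 * (1 - s)) (by linear_combination -4 * hs)
  have hA : red p (A p m (-2 * (1 - s))) = 0 := by
    rw [red_A p m hpm]
    have e : red p (-2 * (1 - s)) = -2 * (1 + -t) := by
      rw [map_mul, map_neg, map_ofNat, map_sub, map_one, hst]; ring
    rw [e]
    exact f_zero p m hpm hodd (-t) (by rw [neg_sq, ht])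
  obtain ⟨z, hz⟩ := red_eq_of p _ 0 (by rw [hA, map_zero])
  rw [zero_add] at hz
  have hone : red p ((1 - -2 * (1 + s)) ^ m) = red p 1 := by
    have e5 : 1 - -2 * (1 + s) = (1 + s) ^ 2 := by linear_combination -hs
    rw [e5, ← pow_mul, show 2 * m = p - 1 by omega, map_pow, map_one]
    apply ZMod.pow_card_sub_one_eq_one
    rw [map_add, map_one, hst]
    intro h0
    have : (1 : ZMod p) = 0 := by linear_combination (t - 1) * h0 - ht
    exact one_ne_zero this
  obtain ⟨e, he⟩ := red_eq_of p _ 1 hone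
  rw [← hsym, he, hz]
  linear_combination (8 ^ (p - 1) * e * z) * hpp

end

end Pool.Agent.T2h13.SC
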