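import Pool.Agent.Q267.MW.KeyLeg

set_option autoImplicit false
set_option maxHeartbeats 4000000
set_option synthInstance.maxHeartbeats 400000

/-!
# A transformation of `∑ C(p-1,k) C(2k,k)^2 x^k` modulo `p²`
-/

namespace Pool.Agent.T2h13.SC

open Finset Pool.Agent.Q267.CDE
open Pool.Agent.Q267.Seven (dl dl_mod)

/-- rising factorial -/
def P {S : Type*} [CommRing S] (x : S) (n : ℕ) : S := ∏ i ∈ range n, (x + (i : S))

section

variable {S : Type*} [CommRing S]

theorem P_zero (x : S) : P x 0 = 1 := rfl

theorem P_succ (x : S) (n : ℕ) : P x (n + 1) = P x n * (x + n) := by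
  unfold P; rw [prod_range_succ]

theorem P_succ' (x : S) (n : ℕ) : P x (n + 1) = x * P (x + 1) n := by
  unfold P
  rw [prod_range_succ', Nat.cast_zero, add_zero, mul_comm]
  congr 1
  refine prod_congr rfl fun i _ => ?_
  push_cast
  ring

theorem P_add (x : S) (a b : ℕ) : P x (a + b) = P x a * P (x + a) b := by
  unfold P
  rw [prod_range_add]
  congr 1
  refine prod_congr rfl fun i _ => ?_
  push_cast
  ring

/-- the Chu-Vandermonde identity -/
theorem vand (j : ℕ) : ∀ a c : S, ∑ k ∈ range (j + 1), (-1) ^ k * (j.choose k : S) *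
    (P a k * P (c + k) (j - k)) = P (c - a) j := by
  induction j with
  | zero => intro a c; simp [P]
  | succ j ih =>
    intro a c
    set Y : ℕ → S := fun k => P a k * P (c + k) (j + 1 - k) with hY
    have e1 : ∑ k ∈ range (j + 1 + 1), (-1) ^ k * ((j + 1).choose k : S) * Y k =
        ∑ k ∈ range (j + 1), (-1) ^ k * (j.choose k : S) * (Y k - Y (k + 1)) := by
      rw [sum_range_succ']
      have e2 : ∑ k ∈ range (j + 1), (-1) ^ (k + 1) * ((j + 1).choose (k + 1) : S) * Y (k + 1) =
          ∑ k ∈ range (j + 1), (-1) ^ (k + 1) * ((j.choose k : ℕ) : S) * Y (k + 1) +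
          ∑ k ∈ range (j + 1), (-1) ^ (k + 1) * ((j.choose (k + 1) : ℕ) : S) * Y (k + 1) := by
        rw [← sum_add_distrib]
        refine sum_congr rfl fun k _ => ?_
        rw [Nat.choose_succ_succ]
        push_cast
        ring
      have e3 : ∑ k ∈ range (j + 1), (-1) ^ (k + 1) * ((j.choose (k + 1) : ℕ) : S) * Y (k + 1) +
          (-1) ^ 0 * ((j + 1).choose 0 : S) * Y 0 =
          ∑ k ∈ range (j + 1), (-1) ^ k * (j.choose k : S) * Y k := by
        have h1 := sum_range_succ' (fun k => (-1) ^ k * ((j.choose k : ℕ) : S) * Y k) (j + 1)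
        have h2 := sum_range_succ (fun k => (-1) ^ k * ((j.choose k : ℕ) : S) * Y k) (j + 1)
        rw [Nat.choose_succ_self, Nat.cast_zero, mul_zero, zero_mul, add_zero] at h2
        rw [← h2, h1]
        simp
      rw [e2, add_assoc, e3, ← sum_add_distrib]
      refine sum_congr rfl fun k _ => ?_
      ring
    change ∑ k ∈ range (j + 1 + 1), (-1) ^ k * ((j + 1).choose k : S) * Y k = _
    rw [e1, P_succ', show c - a + 1 = (c + 1) - a by ring, ← ih a (c + 1), mul_sum]
    refine sum_congr rfl fun k hk => ?_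
    have hk' : k ≤ j := by have := mem_range.mp hk; omega
    have e4 : Y k = P a k * ((c + k) * P (c + 1 + k) (j - k)) := by
      simp only [hY]
      rw [show j + 1 - k = (j - k) + 1 by omega, P_succ', show c + (k : S) + 1 = c + 1 + k by ring]
    have e5 : Y (k + 1) = P a k * (a + k) * P (c + 1 + k) (j - k) := by
      simp only [hY]
      rw [P_succ, show j + 1 - (k + 1) = j - k by omega]
      push_cast
      rw [show c + ((k : S) + 1) = c + 1 + k by ring]
    rw [e4, e5]
    ring

/-- reflection of the shifted Legendre polynomial -/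
theorem dl_reflect (m : ℕ) (x : S) : ∑ k ∈ range (m + 1), (dl m k : S) * (1 - x) ^ k =
    (-1) ^ m * ∑ k ∈ range (m + 1), (dl m k : S) * x ^ k := by
  have key : ∀ y : S, Polynomial.aeval y (Polynomial.shiftedLegendre m) =
      ∑ k ∈ range (m + 1), (dl m k : S) * y ^ k := by
    intro y
    unfold Polynomial.shiftedLegendre
    rw [map_sum]
    refine sum_congr rfl fun k _ => ?_
    rw [map_mul, Polynomial.aeval_C, map_pow, Polynomial.aeval_X]
    congr 1
    unfold dl
    rw [show (m + k).choose m = (m + k).choose k from Nat.choose_symm_add]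
    simp
  have h := Polynomial.shiftedLegendre_eval_symm m x
  rw [key, key] at h
  rw [h, ← mul_assoc, ← mul_pow]
  norm_num

end

section

variable (p m : ℕ) [hp : Fact p.Prime]

/-- the self-inverse sequence -/
def w (m k : ℕ) : R p := (-1) ^ k * (((2 * m).choose k : ℕ) : R p) * (((m + k).choose k : ℕ) : R p)

theorem wP (hpm : p = 2 * m + 1) : ∀ k, k < p → w p m k * P (1 + (p : R p)) k = P ((m : R p) + 1) k := by
  intro k
  induction k with
  | zero => intro _; simp [w, P]
  | succ k ih =>
    intro hk
    have ih := ih (by omega)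
    have hu : IsUnit (((k : R p) + 1) ^ 2) := by
      have := isUnit_nat p (k + 1) (by omega) hk
      push_cast at this
      exact this.pow 2
    apply hu.mul_left_cancel
    rw [P_succ, P_succ, ← ih]
    have h1 : (((2 * m).choose (k + 1) : ℕ) : R p) * ((k : R p) + 1) =
        (((2 * m).choose k : ℕ) : R p) * ((p : R p) - 1 - k) := by
      have h := Nat.choose_succ_right_eq (2 * m) k
      have h' := congrArg (Nat.cast : ℕ → R p) h
      push_cast at h'
      rw [h']
      congr 1
      rw [Nat.cast_sub (by omega)]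
      have : (p : R p) = 2 * m + 1 := by
        have := congrArg (Nat.cast : ℕ → R p) hpm
        push_cast at this
        exact this
      rw [this]
      push_cast
      ring
    have h2 : (((m + (k + 1)).choose (k + 1) : ℕ) : R p) * ((k : R p) + 1) =
        (((m + k).choose k : ℕ) : R p) * ((m : R p) + k + 1) := by
      have h := Nat.add_one_mul_choose_eq (m + k) k
      have h' := congrArg (Nat.cast : ℕ → R p) h
      push_cast at h'
      rw [show m + (k + 1) = m + k + 1 by ring]
      linear_combination -h'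
    have hpp := p_sq p
    unfold w
    rw [pow_succ (-1 : R p) k]
    linear_combination (-(-1) ^ k * P (1 + (p : R p)) k * (1 + p + k) * ((k : R p) + 1) *
        (((m + (k + 1)).choose (k + 1) : ℕ) : R p)) * h1 -
      ((-1) ^ k * P (1 + (p : R p)) k * (1 + p + k) * (((2 * m).choose k : ℕ) : R p) * ((p : R p) - 1 - k)) * h2
      - ((-1) ^ k * P (1 + (p : R p)) k * (((2 * m).choose k : ℕ) : R p) * (((m + k).choose k : ℕ) : R p) *
        ((m : R p) + k + 1)) * hpp

theorem P_unit (j : ℕ) (hj : j < p) : IsUnit (P (1 + (p : R p)) j) := by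
  apply isUnit_of_red
  unfold P
  rw [map_prod]
  apply prod_ne_zero_iff.mpr
  intro i hi
  have hi' := mem_range.mp hi
  rw [map_add, map_add, red_nat, red_nat, map_one, ZMod.natCast_self, add_zero, add_comm]
  have := cast_ne p (i + 1) (by omega) (by omega)
  push_cast at this
  exact this

/-- the sequence is its own binomial transform -/
theorem w_self (hpm : p = 2 * m + 1) (j : ℕ) (hj : j < p) :
    ∑ k ∈ range (j + 1), (-1) ^ k * ((j.choose k : ℕ) : R p) * w p m k = w p m j := by
  apply (P_unit p j hj).mul_left_cancel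
  have h := vand j ((m : R p) + 1) (1 + (p : R p))
  have hc : 1 + (p : R p) - ((m : R p) + 1) = (m : R p) + 1 := by
    have : (p : R p) = 2 * m + 1 := by
      have := congrArg (Nat.cast : ℕ → R p) hpm
      push_cast at this
      exact this
    rw [this]; ring
  rw [hc] at h
  rw [mul_comm (P _ j) (w p m j), wP p m hpm j hj, ← h, mul_sum]
  refine sum_congr rfl fun k hk => ?_
  have hk' : k ≤ j := by have := mem_range.mp hk; omega
  have e : P (1 + (p : R p)) j = P (1 + (p : R p)) k * P (1 + (p : R p) + k) (j - k) := by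
    rw [← P_add, Nat.add_sub_cancel' hk']
  rw [← wP p m hpm k (by omega), e]
  ring

/-- `∑ C(p-1,k) C(2k,k)² (-λ/16)^k` modulo `p²` -/
def A (m : ℕ) (l : R p) : R p := ∑ k ∈ range (m + 1), (-1) ^ k * ((m.choose k : ℕ) : R p) * w p m k * l ^ k

theorem A_sym (hpm : p = 2 * m + 1) (l u : R p) (h : (1 - l) * (1 - u) = 1) :
    (1 - l) ^ m * A p m u = A p m l := by
  unfold A
  have hlu : u * (1 - l) = -l := by linear_combination -h
  set f : ℕ → ℕ → R p := fun k i => (-1) ^ k * ((m.choose k : ℕ) : R p) * w p m k *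
    (((m - k).choose i : ℕ) : R p) * (-l) ^ (k + i) with hf
  have e1 : (1 - l) ^ m * ∑ k ∈ range (m + 1), (-1) ^ k * ((m.choose k : ℕ) : R p) * w p m k * u ^ k =
      ∑ k ∈ range (m + 1), ∑ i ∈ range (m + 1 - k), f k i := by
    rw [mul_sum]
    refine sum_congr rfl fun k hk => ?_
    have hk' : k ≤ m := by have := mem_range.mp hk; omega
    have e2 : (1 - l) ^ m = (1 - l) ^ k * (1 - l) ^ (m - k) := by
      rw [← pow_add, Nat.add_sub_cancel' hk']
    have e3 : (1 - l) ^ (m - k) = ∑ i ∈ range (m - k + 1), (-l) ^ i * (((m - k).choose i : ℕ) : R p) := by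
      rw [show (1 - l) = -l + 1 by ring, add_pow]
      refine sum_congr rfl fun i _ => ?_
      rw [one_pow, mul_one]
    have e4 : (-l) ^ k = u ^ k * (1 - l) ^ k := by rw [← mul_pow, hlu]
    rw [e2, e3, show m + 1 - k = m - k + 1 by omega]
    have : (1 - l) ^ k * (∑ i ∈ range (m - k + 1), (-l) ^ i * (((m - k).choose i : ℕ) : R p)) *
        ((-1) ^ k * ((m.choose k : ℕ) : R p) * w p m k * u ^ k) =
        ((-1) ^ k * ((m.choose k : ℕ) : R p) * w p m k * (-l) ^ k) *
          ∑ i ∈ range (m - k + 1), (-l) ^ i * (((m - k).choose i : ℕ) : R p) := by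
      rw [e4]; ring
    rw [this, mul_sum]
    refine sum_congr rfl fun i _ => ?_
    simp only [hf]
    rw [pow_add]
    ring
  rw [e1, ← sum_range_diag_flip]
  refine sum_congr rfl fun j hj => ?_
  have hj' : j ≤ m := by have := mem_range.mp hj; omega
  have e5 : ∑ k ∈ range (j + 1), f k (j - k) = (-l) ^ j * ((m.choose j : ℕ) : R p) *
      ∑ k ∈ range (j + 1), (-1) ^ k * ((j.choose k : ℕ) : R p) * w p m k := by
    rw [mul_sum]
    refine sum_congr rfl fun k hk => ?_
    have hk' : k ≤ j := by have := mem_range.mp hk; omega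
    simp only [hf]
    rw [Nat.add_sub_cancel' hk']
    have h1 := Nat.choose_mul (n := m) hk'
    have h2 := congrArg (Nat.cast : ℕ → R p) h1
    push_cast at h2
    linear_combination (-(-1) ^ k * w p m k * (-l) ^ j) * h2
  rw [e5, w_self p m hpm j (by omega), neg_pow l j]
  ring

/-- reduction of the coefficients -/
theorem red_w (hpm : p = 2 * m + 1) (k : ℕ) (hk : k ≤ m) :
    red p ((-1) ^ k * ((m.choose k : ℕ) : R p) * w p m k) = ((dl m k : ℤ) : ZMod p) := by
  unfold w dl
  have h1 := Pool.Agent.Q267.Landen.choose_pred p k (by omega)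
  rw [show p - 1 = 2 * m by omega] at h1
  rw [map_mul, map_mul, map_mul, map_mul, map_pow, map_neg, map_one, red_nat, red_nat, red_nat, h1]
  push_cast
  have h3 : ((-1 : ZMod p)) ^ k * (-1) ^ k = 1 := by rw [← mul_pow]; norm_num
  linear_combination ((-1) ^ k * ((m.choose k : ℕ) : ZMod p) * (((m + k).choose k : ℕ) : ZMod p)) * h3

theorem red_A (hpm : p = 2 * m + 1) (l : R p) :
    red p (A p m l) = ∑ k ∈ range (m + 1), ((dl m k : ℤ) : ZMod p) * (red p l) ^ k := by
  unfold A
  rw [map_sum]
  refine sum_congr rfl fun k hk => ?_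
  have hk' : k ≤ m := by have := mem_range.mp hk; omega
  rw [map_mul, map_pow, red_w p m hpm k hk']

end

end Pool.Agent.T2h13.SC
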